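import Mathlib

/-!
An elementary spectral gap for the shears acting on `ℓ²(ℤ² \ {0})`.
-/

namespace R496.SE

open scoped InnerProductSpace

variable {H : Type*} [NormedAddCommGroup H] [InnerProductSpace ℂ H] [CompleteSpace H]

theorem hasSum_repr {ι : Type*} (b : HilbertBasis ι ℂ H) (f : H) :
    HasSum (fun n => ‖b.repr f n‖ ^ 2) (‖f‖ ^ 2) := by
  have h := lp.hasSum_norm (p := 2) (by norm_num) (b.repr f)
  rw [b.repr.norm_map] at h
  have h2 : (2 : ENNReal).toReal = ((2 : ℕ) : ℝ) := by norm_num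
  rw [h2] at h
  simpa only [Real.rpow_natCast] using h

/-- mass of the coordinates of `f` on the set where `p` holds -/
noncomputable def mass {ι : Type*} (b : HilbertBasis ι ℂ H) (p : ι → Prop) [DecidablePred p]
    (f : H) : ℝ := ∑' n, if p n then ‖b.repr f n‖ ^ 2 else 0

theorem mass_summable {ι : Type*} (b : HilbertBasis ι ℂ H) (p : ι → Prop) [DecidablePred p]
    (f : H) : Summable (fun n => if p n then ‖b.repr f n‖ ^ 2 else 0) := by
  refine Summable.of_nonneg_of_le (fun n => ?_) (fun n => ?_) (hasSum_repr b f).summable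
  · split_ifs <;> positivity
  · split_ifs
    · exact le_refl _
    · positivity

theorem mass_shift {ι : Type*} (b : HilbertBasis ι ℂ H) (p : ι → Prop) [DecidablePred p]
    (u : ι ≃ ι) (U : H → H) (f : H) (hU : ∀ n, b.repr (U f) (u n) = b.repr f n) :
    3 / 4 * mass b p f - 3 * ‖U f - f‖ ^ 2 ≤ mass b (fun n => p (u n)) f := by
  have h1 : mass b (fun n => p (u n)) f = ∑' n, if p n then ‖b.repr (U f) n‖ ^ 2 else 0 := by
    unfold mass
    rw [← u.tsum_eq (fun n => if p n then ‖b.repr (U f) n‖ ^ 2 else 0)]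
    refine tsum_congr fun n => ?_
    rw [hU]
  have hs1 := mass_summable b p (U f)
  have hs2 := mass_summable b p f
  have hs3 := hasSum_repr b (U f - f)
  have h2 : 3 / 4 * mass b p f - 3 * ‖U f - f‖ ^ 2 =
      ∑' n, (3 / 4 * (if p n then ‖b.repr f n‖ ^ 2 else 0) - 3 * ‖b.repr (U f - f) n‖ ^ 2) := by
    rw [(hs2.mul_left (3 / 4)).tsum_sub (hs3.summable.mul_left 3), tsum_mul_left, tsum_mul_left,
      hs3.tsum_eq]
    rfl
  rw [h1, h2]
  refine Summable.tsum_le_tsum (fun n => ?_) ((hs2.mul_left _).sub (hs3.summable.mul_left _)) hs1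
  have h3 : b.repr (U f - f) n = b.repr (U f) n - b.repr f n := by simp
  split_ifs
  · set x := ‖b.repr (U f) n‖
    set y := ‖b.repr f n‖
    set d := ‖b.repr (U f - f) n‖
    have hd : y ≤ x + d := by
      have : b.repr f n = b.repr (U f) n - b.repr (U f - f) n := by rw [h3]; ring
      have h4 := norm_sub_le (b.repr (U f) n) (b.repr (U f - f) n)
      rw [← this] at h4
      exact h4
    have hx : 0 ≤ x := norm_nonneg _
    have hy : 0 ≤ y := norm_nonneg _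
    have hd0 : 0 ≤ d := norm_nonneg _
    by_cases hyd : y ≤ d
    · nlinarith [sq_nonneg x]
    · have : y - d ≤ x := by linarith
      have h5 : (y - d) ^ 2 ≤ x ^ 2 := pow_le_pow_left₀ (by linarith) this 2
      nlinarith [sq_nonneg (y - 4 * d)]
  · have : 0 ≤ ‖b.repr (U f - f) n‖ ^ 2 := by positivity
    linarith

/-- the vectors of `ℤ²` with `|x| ≤ |y|`, `(x, y) ≠ 0` -/
def pA (n : Fin 2 → ℤ) : Prop := |n 0| ≤ |n 1| ∧ n 1 ≠ 0

/-- the vectors of `ℤ²` with `|y| ≤ |x|`, `(x, y) ≠ 0` -/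
def pB (n : Fin 2 → ℤ) : Prop := |n 1| ≤ |n 0| ∧ n 0 ≠ 0

instance : DecidablePred pA := fun n => by unfold pA; infer_instance
instance : DecidablePred pB := fun n => by unfold pB; infer_instance

/-- the shear `(x, y) ↦ (x + k y, y)` of `ℤ²` -/
def uA (k : ℤ) : (Fin 2 → ℤ) ≃ (Fin 2 → ℤ) where
  toFun n := ![n 0 + k * n 1, n 1]
  invFun n := ![n 0 - k * n 1, n 1]
  left_inv n := by ext i; fin_cases i <;> simp
  right_inv n := by ext i; fin_cases i <;> simp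

/-- the shear `(x, y) ↦ (x, y + k x)` of `ℤ²` -/
def uB (k : ℤ) : (Fin 2 → ℤ) ≃ (Fin 2 → ℤ) where
  toFun n := ![n 0, n 1 + k * n 0]
  invFun n := ![n 0, n 1 - k * n 0]
  left_inv n := by ext i; fin_cases i <;> simp
  right_inv n := by ext i; fin_cases i <;> simp

theorem int_aux (x y : ℤ) (h1 : |x| ≤ |y|) (h2 : |x + 3 * y| ≤ |y|) : y = 0 := by
  rcases abs_cases x with ⟨e1, f1⟩ | ⟨e1, f1⟩ <;> rcases abs_cases y with ⟨e2, f2⟩ | ⟨e2, f2⟩ <;>
    rcases abs_cases (x + 3 * y) with ⟨e3, f3⟩ | ⟨e3, f3⟩ <;> omega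

theorem int_aux2 (x y : ℤ) (h1 : |x| ≤ |y|) (h2 : |x + -3 * y| ≤ |y|) : y = 0 := by
  rcases abs_cases x with ⟨e1, f1⟩ | ⟨e1, f1⟩ <;> rcases abs_cases y with ⟨e2, f2⟩ | ⟨e2, f2⟩ <;>
    rcases abs_cases (x + -3 * y) with ⟨e3, f3⟩ | ⟨e3, f3⟩ <;> omega

theorem int_aux3 (x y : ℤ) (h1 : |x + 3 * y| ≤ |y|) (h2 : |x + -3 * y| ≤ |y|) : y = 0 := by
  rcases abs_cases (x + 3 * y) with ⟨e1, f1⟩ | ⟨e1, f1⟩ <;>
    rcases abs_cases y with ⟨e2, f2⟩ | ⟨e2, f2⟩ <;>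
    rcases abs_cases (x + -3 * y) with ⟨e3, f3⟩ | ⟨e3, f3⟩ <;> omega

theorem disjA (n : Fin 2 → ℤ) :
    ¬ (pA n ∧ pA (uA 3 n)) ∧ ¬ (pA n ∧ pA (uA (-3) n)) ∧ ¬ (pA (uA 3 n) ∧ pA (uA (-3) n)) := by
  have h1 : uA 3 n 0 = n 0 + 3 * n 1 := rfl
  have h2 : uA 3 n 1 = n 1 := rfl
  have h3 : uA (-3) n 0 = n 0 + (-3) * n 1 := rfl
  have h4 : uA (-3) n 1 = n 1 := rfl
  unfold pA
  rw [h1, h2, h3, h4]
  refine ⟨?_, ?_, ?_⟩ <;> rintro ⟨⟨ha, hb⟩, hc, hd⟩
  · exact hb (int_aux _ _ ha hc)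
  · exact hb (int_aux2 _ _ ha hc)
  · exact hb (int_aux3 _ _ ha hc)

theorem disjB (n : Fin 2 → ℤ) :
    ¬ (pB n ∧ pB (uB 3 n)) ∧ ¬ (pB n ∧ pB (uB (-3) n)) ∧ ¬ (pB (uB 3 n) ∧ pB (uB (-3) n)) := by
  have h1 : uB 3 n 1 = n 1 + 3 * n 0 := rfl
  have h2 : uB 3 n 0 = n 0 := rfl
  have h3 : uB (-3) n 1 = n 1 + (-3) * n 0 := rfl
  have h4 : uB (-3) n 0 = n 0 := rfl
  unfold pB
  rw [h1, h2, h3, h4]
  refine ⟨?_, ?_, ?_⟩ <;> rintro ⟨⟨ha, hb⟩, hc, hd⟩
  · exact hb (int_aux _ _ ha hc)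
  · exact hb (int_aux2 _ _ ha hc)
  · exact hb (int_aux3 _ _ ha hc)

/-- three disjoint sets have total mass at most the squared norm -/
theorem mass_three {ι : Type*} (b : HilbertBasis ι ℂ H) (p q r : ι → Prop) [DecidablePred p]
    [DecidablePred q] [DecidablePred r]
    (h : ∀ n, ¬ (p n ∧ q n) ∧ ¬ (p n ∧ r n) ∧ ¬ (q n ∧ r n)) (f : H) :
    mass b p f + mass b q f + mass b r f ≤ ‖f‖ ^ 2 := by
  unfold mass
  have hp := mass_summable b p f
  have hq := mass_summable b q f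
  have hr := mass_summable b r f
  rw [← hp.tsum_add hq, ← (hp.add hq).tsum_add hr, ← (hasSum_repr b f).tsum_eq]
  refine Summable.tsum_le_tsum (fun n => ?_) ((hp.add hq).add hr) (hasSum_repr b f).summable
  obtain ⟨h1, h2, h3⟩ := h n
  have h0 : 0 ≤ ‖b.repr f n‖ ^ 2 := by positivity
  by_cases hp : p n <;> by_cases hq : q n <;> by_cases hr : r n <;> simp_all

theorem mass_cover (b : HilbertBasis (Fin 2 → ℤ) ℂ H) (f : H) (hf : b.repr f 0 = 0) :
    ‖f‖ ^ 2 ≤ mass b pA f + mass b pB f := by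
  unfold mass
  have hp := mass_summable b pA f
  have hq := mass_summable b pB f
  rw [← hp.tsum_add hq, ← (hasSum_repr b f).tsum_eq]
  refine Summable.tsum_le_tsum (fun n => ?_) (hasSum_repr b f).summable (hp.add hq)
  have h0 : 0 ≤ ‖b.repr f n‖ ^ 2 := by positivity
  by_cases hn : n = 0
  · subst hn
    rw [hf]
    simp
  · have : pA n ∨ pB n := by
      unfold pA pB
      by_contra hcon
      push Not at hcon
      apply hn
      rcases le_total |n 0| |n 1| with h | h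
      · have h1 := hcon.1 h
        have h2 : n 0 = 0 := by
          rw [h1, abs_zero] at h
          exact abs_nonpos_iff.mp h
        ext i
        fin_cases i
        · exact h2
        · exact h1
      · have h1 := hcon.2 h
        have h2 : n 1 = 0 := by
          rw [h1, abs_zero] at h
          exact abs_nonpos_iff.mp h
        ext i
        fin_cases i
        · exact h1
        · exact h2
    rcases this with h | h
    · rw [if_pos h]
      split_ifs <;> linarith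
    · rw [if_pos h]
      split_ifs <;> linarith

/-- the spectral gap -/
theorem gap (b : HilbertBasis (Fin 2 → ℤ) ℂ H) (U1 U2 U3 U4 : H → H)
    (h1 : ∀ f n, b.repr (U1 f) (uA 3 n) = b.repr f n)
    (h2 : ∀ f n, b.repr (U2 f) (uA (-3) n) = b.repr f n)
    (h3 : ∀ f n, b.repr (U3 f) (uB 3 n) = b.repr f n)
    (h4 : ∀ f n, b.repr (U4 f) (uB (-3) n) = b.repr f n) (f : H) (hf : b.repr f 0 = 0) :
    ‖f‖ ^ 2 ≤ 6 * (‖U1 f - f‖ ^ 2 + ‖U2 f - f‖ ^ 2 + ‖U3 f - f‖ ^ 2 + ‖U4 f - f‖ ^ 2) := by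
  have e1 := mass_shift b pA (uA 3) U1 f (h1 f)
  have e2 := mass_shift b pA (uA (-3)) U2 f (h2 f)
  have e3 := mass_shift b pB (uB 3) U3 f (h3 f)
  have e4 := mass_shift b pB (uB (-3)) U4 f (h4 f)
  have d1 := mass_three b pA (fun n => pA (uA 3 n)) (fun n => pA (uA (-3) n)) disjA f
  have d2 := mass_three b pB (fun n => pB (uB 3 n)) (fun n => pB (uB (-3) n)) disjB f
  have c := mass_cover b f hf
  nlinarith

/-- norm bound for the lazy average of four isometries -/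
theorem avg_bound (b : HilbertBasis (Fin 2 → ℤ) ℂ H) (U1 U2 U3 U4 : H → H)
    (h1 : ∀ f n, b.repr (U1 f) (uA 3 n) = b.repr f n)
    (h2 : ∀ f n, b.repr (U2 f) (uA (-3) n) = b.repr f n)
    (h3 : ∀ f n, b.repr (U3 f) (uB 3 n) = b.repr f n)
    (h4 : ∀ f n, b.repr (U4 f) (uB (-3) n) = b.repr f n)
    (n1 : ∀ f, ‖U1 f‖ = ‖f‖) (n2 : ∀ f, ‖U2 f‖ = ‖f‖) (n3 : ∀ f, ‖U3 f‖ = ‖f‖)
    (n4 : ∀ f, ‖U4 f‖ = ‖f‖) (f : H) (hf : b.repr f 0 = 0) :
    ‖(4 : ℂ) • f + (U1 f + U2 f + U3 f + U4 f)‖ ^ 2 ≤ 64 * (95 / 96 * ‖f‖ ^ 2) := by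
  have hg := gap b U1 U2 U3 U4 h1 h2 h3 h4 f hf
  have hpar : ∀ g : H, ‖g‖ = ‖f‖ → ‖f + g‖ ^ 2 = 4 * ‖f‖ ^ 2 - ‖g - f‖ ^ 2 := by
    intro g hgn
    have := parallelogram_law_with_norm ℂ f g
    rw [hgn, norm_sub_rev f g] at this
    nlinarith
  have hsplit : (4 : ℂ) • f + (U1 f + U2 f + U3 f + U4 f) =
      (f + U1 f) + (f + U2 f) + (f + U3 f) + (f + U4 f) := by
    have : (4 : ℂ) • f = f + f + f + f := by
      rw [show (4 : ℂ) = 1 + 1 + 1 + 1 by norm_num]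
      simp [add_smul]
    rw [this]
    abel
  have htri : ‖(4 : ℂ) • f + (U1 f + U2 f + U3 f + U4 f)‖ ≤
      ‖f + U1 f‖ + ‖f + U2 f‖ + ‖f + U3 f‖ + ‖f + U4 f‖ := by
    rw [hsplit]
    refine (norm_add_le _ _).trans ?_
    gcongr
    refine (norm_add_le _ _).trans ?_
    gcongr
    exact norm_add_le _ _
  have p1 := hpar _ (n1 f)
  have p2 := hpar _ (n2 f)
  have p3 := hpar _ (n3 f)
  have p4 := hpar _ (n4 f)
  set a1 := ‖f + U1 f‖
  set a2 := ‖f + U2 f‖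
  set a3 := ‖f + U3 f‖
  set a4 := ‖f + U4 f‖
  have hsq : ‖(4 : ℂ) • f + (U1 f + U2 f + U3 f + U4 f)‖ ^ 2 ≤ (a1 + a2 + a3 + a4) ^ 2 :=
    pow_le_pow_left₀ (norm_nonneg _) htri 2
  have hcs : (a1 + a2 + a3 + a4) ^ 2 ≤ 4 * (a1 ^ 2 + a2 ^ 2 + a3 ^ 2 + a4 ^ 2) := by
    nlinarith [sq_nonneg (a1 - a2), sq_nonneg (a1 - a3), sq_nonneg (a1 - a4), sq_nonneg (a2 - a3),
      sq_nonneg (a2 - a4), sq_nonneg (a3 - a4)]
  nlinarith

end R496.SE
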