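import Mathlib
import Pool.Agent.R496.SE.Gap

/-!
The lazy average of four shears of the two-dimensional torus converges in norm to the projection
onto the constants, and it has bounded support expansion.
-/

namespace R496.SE

open MeasureTheory Filter Topology
open scoped InnerProductSpace ENNReal NNReal

/-- the two-dimensional torus -/
abbrev Y := UnitAddTorus (Fin 2)

/-- the normalised Haar measure of the torus -/
noncomputable def tau : Measure Y :=
  Measure.pi (fun _ => (AddCircle.haarAddCircle : Measure (AddCircle (1 : ℝ))))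

instance : IsProbabilityMeasure tau := by unfold tau; infer_instance

instance : Measure.IsAddHaarMeasure tau := by unfold tau; infer_instance

/-- the Fourier basis -/
noncomputable def bas : HilbertBasis (Fin 2 → ℤ) ℂ (Lp ℂ 2 tau) := UnitAddTorus.mFourierBasis

theorem bas_ae (n : Fin 2 → ℤ) : (bas n : Y → ℂ) =ᵐ[tau] UnitAddTorus.mFourier n := by
  have h1 : bas n = UnitAddTorus.mFourierLp 2 n :=
    congrFun UnitAddTorus.coe_mFourierBasis n
  rw [h1]
  exact UnitAddTorus.coeFn_mFourierLp 2 n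

/-- the shear of the torus, first kind -/
def gA (k : ℤ) : Y →+ Y where
  toFun x := ![x 0, x 1 + k • x 0]
  map_zero' := by ext i; fin_cases i <;> simp
  map_add' x y := by
    ext i
    fin_cases i
    · simp
    · simp only [Fin.mk_one, Matrix.cons_val_one, Pi.add_apply, smul_add]
      simp only [Matrix.cons_val_fin_one]
      abel

/-- the shear of the torus, second kind -/
def gB (k : ℤ) : Y →+ Y where
  toFun x := ![x 0 + k • x 1, x 1]
  map_zero' := by ext i; fin_cases i <;> simp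
  map_add' x y := by
    ext i
    fin_cases i
    · simp only [Fin.zero_eta, Matrix.cons_val_zero, Pi.add_apply, smul_add]
      abel
    · simp

theorem gA_gA (k : ℤ) (x : Y) : gA k (gA (-k) x) = x := by
  show ![(gA (-k) x) 0, (gA (-k) x) 1 + k • (gA (-k) x) 0] = x
  show ![x 0, (x 1 + (-k) • x 0) + k • x 0] = x
  ext i
  fin_cases i
  · rfl
  · simp

theorem gB_gB (k : ℤ) (x : Y) : gB k (gB (-k) x) = x := by
  show ![(x 0 + (-k) • x 1) + k • x 1, x 1] = x
  ext i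
  fin_cases i
  · simp
  · rfl

theorem gA_cont (k : ℤ) : Continuous (gA k) := by
  show Continuous (fun x : Y => (![x 0, x 1 + k • x 0] : Y))
  refine continuous_pi fun i => ?_
  fin_cases i
  · exact continuous_apply 0
  · exact (continuous_apply 1).add ((continuous_zsmul k).comp (continuous_apply 0))

theorem gB_cont (k : ℤ) : Continuous (gB k) := by
  show Continuous (fun x : Y => (![x 0 + k • x 1, x 1] : Y))
  refine continuous_pi fun i => ?_
  fin_cases i
  · exact (continuous_apply 0).add ((continuous_zsmul k).comp (continuous_apply 1))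
  · exact continuous_apply 1

theorem gA_mp (k : ℤ) : MeasurePreserving (gA k) tau tau :=
  AddMonoidHom.measurePreserving (gA_cont k) (fun y => ⟨gA (-k) y, gA_gA k y⟩) rfl

theorem gB_mp (k : ℤ) : MeasurePreserving (gB k) tau tau :=
  AddMonoidHom.measurePreserving (gB_cont k) (fun y => ⟨gB (-k) y, gB_gB k y⟩) rfl

theorem fourier_smul (n k : ℤ) (x y : AddCircle (1 : ℝ)) :
    fourier n (x + k • y) = fourier n x * (fourier (k * n) y : ℂ) := by
  rw [fourier_apply, fourier_apply, fourier_apply, smul_add, AddCircle.toCircle_add, smul_smul,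
    Circle.coe_mul, mul_comm n k]

theorem mF_gA (k : ℤ) (n : Fin 2 → ℤ) (x : Y) :
    UnitAddTorus.mFourier n (gA k x) = UnitAddTorus.mFourier (uA k n) x := by
  show ∏ i, fourier (n i) (gA k x i) = ∏ i, (fourier (uA k n i) (x i) : ℂ)
  rw [Fin.prod_univ_two, Fin.prod_univ_two]
  show fourier (n 0) (x 0) * fourier (n 1) (x 1 + k • x 0) =
    fourier (n 0 + k * n 1) (x 0) * (fourier (n 1) (x 1) : ℂ)
  rw [fourier_smul, fourier_add]
  ring

theorem mF_gB (k : ℤ) (n : Fin 2 → ℤ) (x : Y) :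
    UnitAddTorus.mFourier n (gB k x) = UnitAddTorus.mFourier (uB k n) x := by
  show ∏ i, fourier (n i) (gB k x i) = ∏ i, (fourier (uB k n i) (x i) : ℂ)
  rw [Fin.prod_univ_two, Fin.prod_univ_two]
  show fourier (n 0) (x 0 + k • x 1) * fourier (n 1) (x 1) =
    (fourier (n 0) (x 0) * fourier (n 1 + k * n 0) (x 1) : ℂ)
  rw [fourier_smul, fourier_add]
  ring

/-- composition operator -/
noncomputable def cA (k : ℤ) : Lp ℂ 2 tau →ₗᵢ[ℂ] Lp ℂ 2 tau :=
  Lp.compMeasurePreservingₗᵢ ℂ (gA k) (gA_mp k)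

/-- composition operator -/
noncomputable def cB (k : ℤ) : Lp ℂ 2 tau →ₗᵢ[ℂ] Lp ℂ 2 tau :=
  Lp.compMeasurePreservingₗᵢ ℂ (gB k) (gB_mp k)

theorem cA_ae (k : ℤ) (f : Lp ℂ 2 tau) : (cA k f : Y → ℂ) =ᵐ[tau] f ∘ gA k :=
  Lp.coeFn_compMeasurePreserving f (gA_mp k)

theorem cB_ae (k : ℤ) (f : Lp ℂ 2 tau) : (cB k f : Y → ℂ) =ᵐ[tau] f ∘ gB k :=
  Lp.coeFn_compMeasurePreserving f (gB_mp k)

theorem cA_bas (k : ℤ) (n : Fin 2 → ℤ) : cA k (bas n) = bas (uA k n) := by
  apply Lp.ext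
  have h1 := (gA_mp k).quasiMeasurePreserving.ae_eq_comp (bas_ae n)
  filter_upwards [cA_ae k (bas n), h1, bas_ae (uA k n)] with x e1 e2 e3
  rw [e1, e3, ← mF_gA]
  exact e2

theorem cB_bas (k : ℤ) (n : Fin 2 → ℤ) : cB k (bas n) = bas (uB k n) := by
  apply Lp.ext
  have h1 := (gB_mp k).quasiMeasurePreserving.ae_eq_comp (bas_ae n)
  filter_upwards [cB_ae k (bas n), h1, bas_ae (uB k n)] with x e1 e2 e3
  rw [e1, e3, ← mF_gB]
  exact e2

theorem cA_repr (k : ℤ) (f : Lp ℂ 2 tau) (n : Fin 2 → ℤ) :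
    bas.repr (cA k f) (uA k n) = bas.repr f n := by
  rw [HilbertBasis.repr_apply_apply, HilbertBasis.repr_apply_apply, ← cA_bas,
    LinearIsometry.inner_map_map]

theorem cB_repr (k : ℤ) (f : Lp ℂ 2 tau) (n : Fin 2 → ℤ) :
    bas.repr (cB k f) (uB k n) = bas.repr f n := by
  rw [HilbertBasis.repr_apply_apply, HilbertBasis.repr_apply_apply, ← cB_bas,
    LinearIsometry.inner_map_map]

theorem cA_inv (k : ℤ) (f : Lp ℂ 2 tau) : cA k (cA (-k) f) = f := by
  apply Lp.ext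
  have h1 := (gA_mp k).quasiMeasurePreserving.ae_eq_comp (cA_ae (-k) f)
  filter_upwards [cA_ae k (cA (-k) f), h1] with x e1 e2
  rw [e1, e2]
  show f (gA (-k) (gA k x)) = f x
  have := gA_gA (-k) x
  rw [neg_neg] at this
  rw [this]

theorem cB_inv (k : ℤ) (f : Lp ℂ 2 tau) : cB k (cB (-k) f) = f := by
  apply Lp.ext
  have h1 := (gB_mp k).quasiMeasurePreserving.ae_eq_comp (cB_ae (-k) f)
  filter_upwards [cB_ae k (cB (-k) f), h1] with x e1 e2
  rw [e1, e2]
  show f (gB (-k) (gB k x)) = f x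
  have := gB_gB (-k) x
  rw [neg_neg] at this
  rw [this]

theorem cA_inner (k : ℤ) (f g : Lp ℂ 2 tau) : ⟪cA k f, g⟫_ℂ = ⟪f, cA (-k) g⟫_ℂ := by
  rw [← LinearIsometry.inner_map_map (cA k) f (cA (-k) g), cA_inv]

theorem cB_inner (k : ℤ) (f g : Lp ℂ 2 tau) : ⟪cB k f, g⟫_ℂ = ⟪f, cB (-k) g⟫_ℂ := by
  rw [← LinearIsometry.inner_map_map (cB k) f (cB (-k) g), cB_inv]

/-- `8` times the lazy average -/
noncomputable def avg8 : Lp ℂ 2 tau →L[ℂ] Lp ℂ 2 tau :=
  (4 : ℂ) • ContinuousLinearMap.id ℂ _ + ((cA 3).toContinuousLinearMap +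
    (cA (-3)).toContinuousLinearMap + (cB 3).toContinuousLinearMap +
    (cB (-3)).toContinuousLinearMap)

/-- the lazy average of the four shears -/
noncomputable def avg : Lp ℂ 2 tau →L[ℂ] Lp ℂ 2 tau := (8 : ℂ)⁻¹ • avg8

theorem avg8_apply (f : Lp ℂ 2 tau) :
    avg8 f = (4 : ℂ) • f + (cA 3 f + cA (-3) f + cB 3 f + cB (-3) f) := rfl

theorem avg8_sym (f g : Lp ℂ 2 tau) : ⟪avg8 f, g⟫_ℂ = ⟪f, avg8 g⟫_ℂ := by
  rw [avg8_apply, avg8_apply]
  simp only [inner_add_left, inner_add_right, inner_smul_left, inner_smul_right, cA_inner,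
    cB_inner, neg_neg]
  have : (starRingEnd ℂ) 4 = 4 := by
    have := Complex.conj_ofReal 4
    simpa using this
  rw [this]
  ring

theorem avg_adj : ContinuousLinearMap.adjoint avg = avg := by
  symm
  rw [ContinuousLinearMap.eq_adjoint_iff]
  intro f g
  show ⟪(8 : ℂ)⁻¹ • avg8 f, g⟫_ℂ = ⟪f, (8 : ℂ)⁻¹ • avg8 g⟫_ℂ
  rw [inner_smul_left, inner_smul_right, avg8_sym]
  congr 1
  have := Complex.conj_ofReal (8⁻¹)
  simpa using this

/-- the constant function `1` -/
noncomputable def one' : Lp ℂ 2 tau := bas 0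

theorem one_ae : (one' : Y → ℂ) =ᵐ[tau] fun _ => 1 := by
  filter_upwards [bas_ae 0] with x e
  unfold one'
  rw [e, UnitAddTorus.mFourier_zero]
  rfl

theorem uA_zero (k : ℤ) : uA k 0 = 0 := by
  show ![(0 : ℤ) + k * 0, 0] = 0
  ext i; fin_cases i <;> simp

theorem uB_zero (k : ℤ) : uB k 0 = 0 := by
  show ![(0 : ℤ), 0 + k * 0] = 0
  ext i; fin_cases i <;> simp

theorem avg_one : avg one' = one' := by
  show (8 : ℂ)⁻¹ • avg8 one' = one'
  rw [avg8_apply]
  unfold one'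
  rw [cA_bas, cA_bas, cB_bas, cB_bas, uA_zero, uA_zero, uB_zero, uB_zero]
  have : (4 : ℂ) • bas 0 + (bas 0 + bas 0 + bas 0 + bas 0) = (8 : ℂ) • bas 0 := by
    rw [show (8 : ℂ) = 4 + 1 + 1 + 1 + 1 by norm_num]
    simp only [add_smul, one_smul]
    abel
  rw [this, smul_smul]
  norm_num

/-- the projection onto the constants -/
noncomputable def P0 : Lp ℂ 2 tau →L[ℂ] Lp ℂ 2 tau :=
  (innerSL ℂ one').smulRight one'

theorem P0_apply (f : Lp ℂ 2 tau) : P0 f = ⟪one', f⟫_ℂ • one' := rfl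

theorem inner_one_one : ⟪one', one'⟫_ℂ = (1 : ℂ) := by
  rw [inner_self_eq_norm_sq_to_K]
  have : ‖(one' : Lp ℂ 2 tau)‖ = 1 := bas.orthonormal.1 0
  rw [this]
  simp

theorem inner_one_avg (f : Lp ℂ 2 tau) : ⟪one', avg f⟫_ℂ = ⟪one', f⟫_ℂ := by
  have h := ContinuousLinearMap.adjoint_inner_left avg f one'
  rw [avg_adj, avg_one] at h
  exact h.symm

theorem avg_P0 : avg * P0 = P0 := by
  ext1 f
  show avg (P0 f) = P0 f
  rw [P0_apply, map_smul, avg_one]

theorem P0_avg : P0 * avg = P0 := by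
  ext1 f
  show P0 (avg f) = P0 f
  rw [P0_apply, P0_apply, inner_one_avg]

theorem P0_P0 : P0 * P0 = P0 := by
  ext1 f
  show P0 (P0 f) = P0 f
  rw [P0_apply (P0 f), P0_apply f, inner_smul_right, inner_one_one, mul_one]

theorem avg_sub_bound (f : Lp ℂ 2 tau) : ‖(avg - P0) f‖ ≤ √(95 / 96) * ‖f‖ := by
  set g := f - P0 f with hg
  have h1 : (avg - P0) f = avg g := by
    have : avg (P0 f) = P0 f := by
      rw [P0_apply, map_smul, avg_one]
    rw [hg, map_sub, this]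
    rfl
  have hg0 : bas.repr g 0 = 0 := by
    rw [HilbertBasis.repr_apply_apply]
    show ⟪one', g⟫_ℂ = 0
    rw [hg, inner_sub_right, P0_apply, inner_smul_right, inner_one_one, mul_one, sub_self]
  have h2 := avg_bound bas (cA 3) (cA (-3)) (cB 3) (cB (-3)) (cA_repr 3) (cA_repr (-3))
    (cB_repr 3) (cB_repr (-3)) (fun f => (cA 3).norm_map f) (fun f => (cA (-3)).norm_map f)
    (fun f => (cB 3).norm_map f) (fun f => (cB (-3)).norm_map f) g hg0
  rw [← avg8_apply] at h2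
  have h3 : ‖avg g‖ ^ 2 ≤ 95 / 96 * ‖g‖ ^ 2 := by
    show ‖(8 : ℂ)⁻¹ • avg8 g‖ ^ 2 ≤ _
    rw [norm_smul, mul_pow]
    have : ‖(8 : ℂ)⁻¹‖ ^ 2 = 1 / 64 := by
      rw [norm_inv]
      norm_num
    rw [this]
    linarith
  have h4 : ‖g‖ ^ 2 ≤ ‖f‖ ^ 2 := by
    have hf : f = P0 f + g := by rw [hg]; abel
    have horth : ⟪P0 f, g⟫_ℂ = 0 := by
      rw [P0_apply, inner_smul_left]
      have : ⟪one', g⟫_ℂ = 0 := by
        rw [hg, inner_sub_right, P0_apply, inner_smul_right, inner_one_one, mul_one, sub_self]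
      rw [this, mul_zero]
    have := norm_add_sq_eq_norm_sq_add_norm_sq_of_inner_eq_zero (𝕜 := ℂ) (P0 f) g horth
    rw [← hf] at this
    nlinarith [norm_nonneg (P0 f), norm_nonneg f, norm_nonneg g]
  rw [h1]
  have h5 : ‖avg g‖ ^ 2 ≤ (√(95 / 96) * ‖f‖) ^ 2 := by
    rw [mul_pow, Real.sq_sqrt (by norm_num)]
    linarith
  exact le_of_sq_le_sq h5 (by positivity)

theorem avg_pow (n : ℕ) : (avg - P0) ^ (n + 1) = avg ^ (n + 1) - P0 := by
  induction n with
  | zero => simp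
  | succ n ih =>
    have h1 : ∀ m : ℕ, avg ^ m * P0 = P0 := by
      intro m
      induction m with
      | zero => simp
      | succ m ihm => rw [pow_succ, mul_assoc, avg_P0, ihm]
    rw [pow_succ, ih, sub_mul, mul_sub, mul_sub, ← pow_succ, h1, P0_avg, P0_P0]
    abel

theorem avg_tendsto : Tendsto (fun n : ℕ => avg ^ n) atTop (𝓝 P0) := by
  rw [← tendsto_add_atTop_iff_nat 1, tendsto_iff_norm_sub_tendsto_zero]
  have hn : ‖avg - P0‖ ≤ √(95 / 96) :=
    ContinuousLinearMap.opNorm_le_bound _ (Real.sqrt_nonneg _) avg_sub_bound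
  have hlt : √(95 / 96 : ℝ) < 1 := by
    rw [Real.sqrt_lt' (by norm_num)]
    norm_num
  have h0 : Tendsto (fun n : ℕ => √(95 / 96 : ℝ) ^ (n + 1)) atTop (𝓝 0) :=
    (tendsto_add_atTop_iff_nat 1).mpr
      (tendsto_pow_atTop_nhds_zero_of_lt_one (Real.sqrt_nonneg _) hlt)
  refine squeeze_zero (fun n => norm_nonneg _) (fun n => ?_) h0
  rw [← avg_pow]
  exact (norm_pow_le' _ (Nat.succ_pos n)).trans (pow_le_pow_left₀ (norm_nonneg _) hn _)

/-- support expansion of an operator between two `L²` spaces -/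
def Ex {X1 X2 : Type*} [MeasurableSpace X1] [MeasurableSpace X2] {μ : Measure X1}
    {ν : Measure X2} (c : ℝ≥0∞) (a : Lp ℂ 2 μ →L[ℂ] Lp ℂ 2 ν) : Prop :=
  ∀ f, ν {x | a f x ≠ 0} ≤ c * μ {x | f x ≠ 0}

theorem Ex.comp {X1 X2 X3 : Type*} [MeasurableSpace X1] [MeasurableSpace X2]
    [MeasurableSpace X3] {μ : Measure X1} {ν : Measure X2} {ρ : Measure X3} {c d : ℝ≥0∞}
    {a : Lp ℂ 2 μ →L[ℂ] Lp ℂ 2 ν} {b : Lp ℂ 2 ν →L[ℂ] Lp ℂ 2 ρ} (ha : Ex c a) (hb : Ex d b) :
    Ex (d * c) (b.comp a) := by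
  intro f
  refine (hb (a f)).trans ?_
  rw [mul_assoc]
  gcongr
  exact ha f

theorem Ex.add {X1 X2 : Type*} [MeasurableSpace X1] [MeasurableSpace X2] {μ : Measure X1}
    {ν : Measure X2} {c d : ℝ≥0∞} {a b : Lp ℂ 2 μ →L[ℂ] Lp ℂ 2 ν} (ha : Ex c a) (hb : Ex d b) :
    Ex (c + d) (a + b) := by
  intro f
  have h1 : ν {x | (a + b) f x ≠ 0} ≤ ν ({x | a f x ≠ 0} ∪ {x | b f x ≠ 0}) := by
    apply measure_mono_ae
    filter_upwards [Lp.coeFn_add (a f) (b f)] with x hx hxx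
    by_contra hcon
    apply hxx
    have h2 : ¬ (a f x ≠ 0) := fun h => hcon (Or.inl h)
    have h3 : ¬ (b f x ≠ 0) := fun h => hcon (Or.inr h)
    push Not at h2 h3
    show (a f + b f : Lp ℂ 2 ν) x = 0
    rw [hx, Pi.add_apply, h2, h3, add_zero]
  refine h1.trans ((measure_union_le _ _).trans ?_)
  rw [add_mul]
  exact add_le_add (ha f) (hb f)

theorem Ex.smul {X1 X2 : Type*} [MeasurableSpace X1] [MeasurableSpace X2] {μ : Measure X1}
    {ν : Measure X2} {c : ℝ≥0∞} {a : Lp ℂ 2 μ →L[ℂ] Lp ℂ 2 ν} (ha : Ex c a) (z : ℂ) :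
    Ex c (z • a) := by
  intro f
  refine le_trans ?_ (ha f)
  apply measure_mono_ae
  filter_upwards [Lp.coeFn_smul z (a f)] with x hx hxx
  intro hcon
  apply hxx
  show (z • a f : Lp ℂ 2 ν) x = 0
  rw [hx, Pi.smul_apply, hcon, smul_zero]

theorem Ex.id' {X1 : Type*} [MeasurableSpace X1] {μ : Measure X1} :
    Ex 1 (ContinuousLinearMap.id ℂ (Lp ℂ 2 μ)) := by
  intro f
  rw [one_mul]
  rfl

theorem Ex.mono {X1 X2 : Type*} [MeasurableSpace X1] [MeasurableSpace X2] {μ : Measure X1}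
    {ν : Measure X2} {c d : ℝ≥0∞} {a : Lp ℂ 2 μ →L[ℂ] Lp ℂ 2 ν} (ha : Ex c a) (h : c ≤ d) :
    Ex d a := fun f => (ha f).trans (by gcongr)

theorem Ex_cA (k : ℤ) : Ex 1 (cA k).toContinuousLinearMap := by
  intro f
  rw [one_mul]
  have h1 : tau {x | (cA k f : Y → ℂ) x ≠ 0} = tau ((gA k) ⁻¹' {x | f x ≠ 0}) := by
    apply measure_congr
    filter_upwards [cA_ae k f] with x hx
    apply propext
    show (cA k f x ≠ 0) ↔ (f (gA k x) ≠ 0)
    rw [hx]
    rfl
  refine (le_of_eq h1).trans (le_of_eq ?_)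
  refine (gA_mp k).measure_preimage (MeasurableSet.nullMeasurableSet ?_)
  exact (Lp.stronglyMeasurable f).measurable (measurableSet_singleton 0).compl

theorem Ex_cB (k : ℤ) : Ex 1 (cB k).toContinuousLinearMap := by
  intro f
  rw [one_mul]
  have h1 : tau {x | (cB k f : Y → ℂ) x ≠ 0} = tau ((gB k) ⁻¹' {x | f x ≠ 0}) := by
    apply measure_congr
    filter_upwards [cB_ae k f] with x hx
    apply propext
    show (cB k f x ≠ 0) ↔ (f (gB k x) ≠ 0)
    rw [hx]
    rfl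
  refine (le_of_eq h1).trans (le_of_eq ?_)
  refine (gB_mp k).measure_preimage (MeasurableSet.nullMeasurableSet ?_)
  exact (Lp.stronglyMeasurable f).measurable (measurableSet_singleton 0).compl

theorem Ex_avg : Ex 5 avg := by
  have h : Ex (1 + (1 + 1 + 1 + 1)) avg8 :=
    (Ex.id'.smul 4).add ((((Ex_cA 3).add (Ex_cA (-3))).add (Ex_cB 3)).add (Ex_cB (-3)))
  exact (h.smul _).mono (le_of_eq (by norm_num))

theorem Ex_avg_pow (n : ℕ) : Ex (5 ^ n) (avg ^ n) := by
  induction n with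
  | zero =>
    rw [pow_zero, pow_zero]
    exact Ex.id'
  | succ n ih =>
    rw [pow_succ, pow_succ]
    exact Ex_avg.comp ih

theorem avg_pow_adj (n : ℕ) : ContinuousLinearMap.adjoint (avg ^ n) = avg ^ n := by
  induction n with
  | zero =>
    rw [pow_zero]
    exact ContinuousLinearMap.adjoint_id
  | succ n ih =>
    rw [pow_succ]
    show ContinuousLinearMap.adjoint ((avg ^ n).comp avg) = _
    rw [ContinuousLinearMap.adjoint_comp, ih, avg_adj]
    show avg * avg ^ n = avg ^ n * avg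
    rw [← pow_succ', ← pow_succ]

end R496.SE
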