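import Mathlib
import Pool.Agent.R496.SE.Torus

/-!
Isomorphisms of atomless standard Borel probability spaces with the unit interval.
-/

namespace R496.SE

open MeasureTheory Filter Topology Set
open scoped ENNReal

theorem iso_real (ν : Measure ℝ) [IsProbabilityMeasure ν] [NullSingletonClass ν] :
    ∃ S : ℝ → ℝ, Measurable S ∧ Measure.map S (volume.restrict (Ioo (0 : ℝ) 1)) = ν ∧
      ∀ t ∈ Ioo (0 : ℝ) 1, ProbabilityTheory.cdf ν (S t) = t := by
  set F := ProbabilityTheory.cdf ν with hF
  have hmono : Monotone F := ProbabilityTheory.monotone_cdf ν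
  have hbot : Tendsto F atBot (𝓝 0) := ProbabilityTheory.tendsto_cdf_atBot ν
  have htop : Tendsto F atTop (𝓝 1) := ProbabilityTheory.tendsto_cdf_atTop ν
  have hof : ∀ x, ENNReal.ofReal (F x) = ν (Iic x) := ProbabilityTheory.ofReal_cdf ν
  have hF0 : ∀ x, 0 ≤ F x := ProbabilityTheory.cdf_nonneg ν
  have hF1 : ∀ x, F x ≤ 1 := ProbabilityTheory.cdf_le_one ν
  have hne : ∀ t < (1 : ℝ), {x | t ≤ F x}.Nonempty := by
    intro t ht
    obtain ⟨x, hx⟩ := (htop.eventually (lt_mem_nhds ht)).exists
    exact ⟨x, hx.le⟩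
  have hbd : ∀ t > (0 : ℝ), BddBelow {x | t ≤ F x} := by
    intro t ht
    obtain ⟨x0, hx0⟩ := (hbot.eventually (gt_mem_nhds ht)).exists
    refine ⟨x0, fun x hx => ?_⟩
    by_contra hcon
    push Not at hcon
    have := hmono hcon.le
    have hx' : t ≤ F x := hx
    linarith
  have hmem : ∀ t ∈ Ioo (0 : ℝ) 1, t ≤ F (sInf {x | t ≤ F x}) := by
    intro t ht
    have hrc : ContinuousWithinAt F (Ioi (sInf {x | t ≤ F x})) (sInf {x | t ≤ F x}) :=
      (F.right_continuous _).mono Ioi_subset_Ici_self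
    refine ge_of_tendsto hrc ?_
    filter_upwards [self_mem_nhdsWithin] with x hx
    obtain ⟨y, hy, hyx⟩ := exists_lt_of_csInf_lt (hne t ht.2) hx
    exact le_trans hy (hmono hyx.le)
  have hgal : ∀ t ∈ Ioo (0 : ℝ) 1, ∀ x, sInf {x | t ≤ F x} ≤ x ↔ t ≤ F x := by
    intro t ht x
    constructor
    · intro h
      exact (hmem t ht).trans (hmono h)
    · intro h
      exact csInf_le (hbd t ht.1) h
  classical
  set S : ℝ → ℝ := fun t => if t ∈ Ioo (0 : ℝ) 1 then sInf {x | t ≤ F x} else 0 with hS
  have hSpre : ∀ x, S ⁻¹' (Iic x) = (Ioo (0 : ℝ) 1 ∩ Iic (F x)) ∪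
      ((Ioo (0 : ℝ) 1)ᶜ ∩ {_t | 0 ≤ x}) := by
    intro x
    ext t
    simp only [mem_preimage, mem_Iic, hS, mem_union, mem_inter_iff, mem_compl_iff, mem_ofPred_eq]
    by_cases ht : t ∈ Ioo (0 : ℝ) 1
    · simp [ht, hgal t ht x]
    · simp [ht]
  have hSm : Measurable S := by
    refine measurable_of_Iic fun x => ?_
    rw [hSpre]
    refine (measurableSet_Ioo.inter measurableSet_Iic).union
      (measurableSet_Ioo.compl.inter ?_)
    exact MeasurableSet.const _
  have hmap : Measure.map S (volume.restrict (Ioo (0 : ℝ) 1)) = ν := by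
    haveI : IsFiniteMeasure (Measure.map S (volume.restrict (Ioo (0 : ℝ) 1))) := by
      refine ⟨?_⟩
      rw [Measure.map_apply hSm MeasurableSet.univ]
      simp
    refine Measure.ext_of_Iic _ _ fun x => ?_
    rw [Measure.map_apply hSm measurableSet_Iic, ← hof, Measure.restrict_apply
      (hSm measurableSet_Iic)]
    have h1 : S ⁻¹' (Iic x) ∩ Ioo (0 : ℝ) 1 = Ioo (0 : ℝ) 1 ∩ Iic (F x) := by
      rw [hSpre]
      ext t
      simp only [mem_inter_iff, mem_union, mem_compl_iff, mem_ofPred_eq]
      tauto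
    rw [h1]
    apply le_antisymm
    · calc volume (Ioo (0 : ℝ) 1 ∩ Iic (F x)) ≤ volume (Icc 0 (F x)) := by
            apply measure_mono
            rintro t ⟨ht, ht'⟩
            exact ⟨ht.1.le, ht'⟩
        _ = ENNReal.ofReal (F x) := by rw [Real.volume_Icc, sub_zero]
    · calc ENNReal.ofReal (F x) = volume (Ioo 0 (F x)) := by rw [Real.volume_Ioo, sub_zero]
        _ ≤ _ := by
            apply measure_mono
            rintro t ht
            exact ⟨⟨ht.1, ht.2.trans_le (hF1 x)⟩, ht.2.le⟩
  refine ⟨S, hSm, hmap, fun t ht => ?_⟩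
  have hSt : S t = sInf {x | t ≤ F x} := by simp only [hS, if_pos ht]
  rw [hSt]
  set s := sInf {x | t ≤ F x} with hs
  apply le_antisymm _ (hmem t ht)
  by_contra hcon
  push Not at hcon
  -- continuity from below
  have hU : Iio s = ⋃ n : ℕ, Iic (s - 1 / ((n : ℝ) + 1)) := by
    ext x
    simp only [mem_Iio, mem_iUnion, mem_Iic]
    constructor
    · intro h
      obtain ⟨n, hn⟩ := exists_nat_one_div_lt (sub_pos.mpr h)
      exact ⟨n, by linarith⟩
    · rintro ⟨n, hn⟩
      have : (0 : ℝ) < 1 / ((n : ℝ) + 1) := by positivity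
      linarith
  have hmonoU : Monotone fun n : ℕ => Iic (s - 1 / ((n : ℝ) + 1)) := by
    intro n m hnm
    apply Iic_subset_Iic.mpr
    have : 1 / ((m : ℝ) + 1) ≤ 1 / ((n : ℝ) + 1) := by
      apply one_div_le_one_div_of_le (by positivity)
      have : (n : ℝ) ≤ m := by exact_mod_cast hnm
      linarith
    linarith
  have hlim := tendsto_measure_iUnion_atTop (μ := ν) hmonoU
  rw [← hU, measure_congr Iio_ae_eq_Iic, ← hof] at hlim
  have hev := hlim.eventually (lt_mem_nhds
    ((ENNReal.ofReal_lt_ofReal_iff (lt_trans ht.1 hcon)).mpr hcon))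
  obtain ⟨n, hn⟩ := hev.exists
  simp only [Function.comp_apply] at hn
  rw [← hof] at hn
  have h2 : t < F (s - 1 / ((n : ℝ) + 1)) := by
    have := ENNReal.ofReal_lt_ofReal_iff' .. |>.mp hn
    exact this.1
  have h3 := (hgal t ht _).mpr h2.le
  have : (0 : ℝ) < 1 / ((n : ℝ) + 1) := by positivity
  linarith

theorem iso_interval {X : Type*} [MeasurableSpace X] [StandardBorelSpace X] (ν : Measure X)
    [IsProbabilityMeasure ν] [NullSingletonClass ν] :
    ∃ (S : ℝ → X) (T : X → ℝ), Measurable S ∧ Measurable T ∧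
      Measure.map S (volume.restrict (Ioo (0 : ℝ) 1)) = ν ∧ ∀ t ∈ Ioo (0 : ℝ) 1, T (S t) = t := by
  have hunc : ¬ Countable X := by
    intro h
    have h1 : ν univ = 0 := (countable_univ (α := X)).measure_zero ν
    rw [measure_univ] at h1
    exact one_ne_zero h1
  have hR : ¬ Countable ℝ := by
    intro h
    exact Cardinal.not_countable_real (countable_univ (α := ℝ))
  let e : X ≃ᵐ ℝ := PolishSpace.measurableEquivOfNotCountable hunc hR
  haveI : IsProbabilityMeasure (Measure.map e ν) :=
    Measure.isProbabilityMeasure_map e.measurable.aemeasurable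
  haveI : NullSingletonClass (Measure.map e ν) := by
    refine ⟨fun x => ?_⟩
    rw [Measure.map_apply e.measurable (measurableSet_singleton x)]
    have : e ⁻¹' {x} = {e.symm x} := by
      ext y
      simp only [mem_preimage, mem_singleton_iff]
      constructor
      · intro h; rw [← h]; simp
      · intro h; rw [h]; simp
    rw [this]
    exact measure_singleton _
  obtain ⟨S, hS, hmap, hST⟩ := iso_real (Measure.map e ν)
  refine ⟨e.symm ∘ S, fun x => ProbabilityTheory.cdf (Measure.map e ν) (e x),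
    e.symm.measurable.comp hS,
    (ProbabilityTheory.monotone_cdf _).measurable.comp e.measurable, ?_, ?_⟩
  · rw [← Measure.map_map e.symm.measurable hS, hmap, Measure.map_map e.symm.measurable
      e.measurable]
    simp
  · intro t ht
    simp only [Function.comp_apply, MeasurableEquiv.apply_symm_apply]
    exact hST t ht

instance : NullSingletonClass (AddCircle.haarAddCircle : Measure (AddCircle (1 : ℝ))) := by
  refine ⟨fun x => ?_⟩
  have h1 := AddCircle.volume_eq_smul_haarAddCircle (T := (1 : ℝ))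
  rw [ENNReal.ofReal_one, one_smul] at h1
  rw [← h1]
  have h2 := AddCircle.volume_closedBall (T := (1 : ℝ)) (x := x) 0
  rw [Metric.closedBall_zero] at h2
  rw [h2]
  simp

instance : NullSingletonClass tau := by unfold tau; infer_instance

theorem iso_torus {X : Type*} [MeasurableSpace X] [StandardBorelSpace X] (ν : Measure X)
    [IsProbabilityMeasure ν] [NullSingletonClass ν] :
    ∃ (S : Y → X) (T : X → Y), Measurable S ∧ Measurable T ∧
      Measure.map S tau = ν ∧ ∀ᵐ y ∂tau, T (S y) = y := by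
  obtain ⟨S1, T1, hS1, hT1, hm1, hi1⟩ := iso_interval ν
  obtain ⟨S2, T2, hS2, hT2, hm2, hi2⟩ := iso_interval tau
  have hT2m : Measure.map T2 tau = volume.restrict (Ioo (0 : ℝ) 1) := by
    rw [← hm2, Measure.map_map hT2 hS2]
    have : T2 ∘ S2 =ᵐ[volume.restrict (Ioo (0 : ℝ) 1)] id := by
      filter_upwards [ae_restrict_mem measurableSet_Ioo] with t ht
      exact hi2 t ht
    rw [Measure.map_congr this, Measure.map_id]
  refine ⟨S1 ∘ T2, S2 ∘ T1, hS1.comp hT2, hS2.comp hT1, ?_, ?_⟩
  · rw [← Measure.map_map hS1 hT2, hT2m, hm1]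
  · rw [← hm2, ae_map_iff hS2.aemeasurable]
    · filter_upwards [ae_restrict_mem measurableSet_Ioo] with t ht
      simp only [Function.comp_apply]
      rw [hi2 t ht, hi1 t ht]
    · exact measurableSet_eq_fun ((hS2.comp hT1).comp (hS1.comp hT2)) measurable_id

end R496.SE
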