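import Mathlib
import Pool.Agent.R496.SE.Iso

/-!
Transport of the operators of the torus to pieces of a measure space.
-/

namespace R496.SE

open MeasureTheory Filter Topology Set
open scoped InnerProductSpace ENNReal NNReal ComplexConjugate

variable {X : Type*} [MeasurableSpace X]

/-- `S` and `T` identify the piece `B` of `X` with the torus (up to scaling of the measure) -/
structure Piece (μ : Measure X) (B : Set X) (S : Y → X) (T : X → Y) : Prop where
  mB : MeasurableSet B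
  pos : μ B ≠ 0
  fin : μ B ≠ ∞
  mS : Measurable S
  mT : Measurable T
  map : Measure.map S tau = (μ B)⁻¹ • μ.restrict B
  inv : ∀ᵐ y ∂tau, T (S y) = y

variable {μ : Measure X} {B : Set X} {S : Y → X} {T : X → Y}

theorem Piece.restrict_eq (h : Piece μ B S T) : μ.restrict B = μ B • Measure.map S tau := by
  rw [h.map, smul_smul, ENNReal.mul_inv_cancel h.pos h.fin, one_smul]

theorem Piece.map_T (h : Piece μ B S T) : Measure.map T (μ.restrict B) = μ B • tau := by
  rw [h.restrict_eq, Measure.map_smul, Measure.map_map h.mT h.mS]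
  have : T ∘ S =ᵐ[tau] id := h.inv
  rw [Measure.map_congr this, Measure.map_id]

theorem Piece.ac_S (h : Piece μ B S T) : Measure.map S tau ≪ μ := by
  rw [h.map]
  exact (Measure.smul_absolutelyContinuous).trans Measure.restrict_le_self.absolutelyContinuous

theorem Piece.ae_S (h : Piece μ B S T) {p : X → Prop} (hp : ∀ᵐ x ∂μ, p x) :
    ∀ᵐ y ∂tau, p (S y) :=
  ae_of_ae_map h.mS.aemeasurable (h.ac_S hp)

theorem Piece.ae_T (h : Piece μ B S T) {p : Y → Prop} (hp : ∀ᵐ y ∂tau, p y) :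
    ∀ᵐ x ∂(μ.restrict B), p (T x) := by
  apply ae_of_ae_map h.mT.aemeasurable
  rw [h.map_T]
  exact Measure.smul_absolutelyContinuous hp

theorem Piece.memLp_S (h : Piece μ B S T) (ξ : Lp ℂ 2 μ) : MemLp (ξ ∘ S) 2 tau := by
  apply MemLp.comp_of_map _ h.mS.aemeasurable
  rw [h.map]
  exact ((Lp.memLp ξ).restrict B).smul_measure (ENNReal.inv_ne_top.mpr h.pos)

theorem Piece.memLp_T (h : Piece μ B S T) (f : Lp ℂ 2 tau) :
    MemLp (B.indicator (f ∘ T)) 2 μ := by
  rw [memLp_indicator_iff_restrict h.mB]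
  apply MemLp.comp_of_map _ h.mT.aemeasurable
  rw [h.map_T]
  exact (Lp.memLp f).smul_measure h.fin

/-- restriction to a piece -/
noncomputable def Piece.V (h : Piece μ B S T) : Lp ℂ 2 μ →L[ℂ] Lp ℂ 2 tau :=
  LinearMap.mkContinuous
    { toFun := fun ξ => (h.memLp_S ξ).toLp _
      map_add' := by
        intro ξ η
        apply Lp.ext
        filter_upwards [(h.memLp_S (ξ + η)).coeFn_toLp, (h.memLp_S ξ).coeFn_toLp,
          (h.memLp_S η).coeFn_toLp, h.ae_S (Lp.coeFn_add ξ η),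
          Lp.coeFn_add ((h.memLp_S ξ).toLp _) ((h.memLp_S η).toLp _)] with y e1 e2 e3 e4 e5
        rw [e1, e5, Pi.add_apply, e2, e3]
        exact e4
      map_smul' := by
        intro z ξ
        apply Lp.ext
        filter_upwards [(h.memLp_S (z • ξ)).coeFn_toLp, (h.memLp_S ξ).coeFn_toLp,
          h.ae_S (Lp.coeFn_smul z ξ), Lp.coeFn_smul z ((h.memLp_S ξ).toLp _)] with y e1 e2 e3 e4
        rw [e1, RingHom.id_apply, e4, Pi.smul_apply, e2]
        exact e3 }
    (((μ B)⁻¹ ^ (1 / (2 : ℝ≥0∞)).toReal).toReal) (by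
      intro ξ
      show ‖(h.memLp_S ξ).toLp _‖ ≤ _
      rw [Lp.norm_toLp, Lp.norm_def, ← ENNReal.toReal_mul]
      apply ENNReal.toReal_mono
      · refine ENNReal.mul_ne_top ?_ (Lp.eLpNorm_ne_top ξ)
        exact ENNReal.rpow_ne_top_of_nonneg ENNReal.toReal_nonneg (ENNReal.inv_ne_top.mpr h.pos)
      · rw [← eLpNorm_map_measure _ h.mS.aemeasurable, h.map,
          eLpNorm_smul_measure_of_ne_top (by norm_num)]
        · rw [smul_eq_mul]
          refine mul_le_mul_right ?_ _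
          exact eLpNorm_mono_measure _ Measure.restrict_le_self
        · rw [h.map]
          exact ((Lp.aestronglyMeasurable ξ).restrict).smul_measure _)

/-- extension from a piece -/
noncomputable def Piece.W (h : Piece μ B S T) : Lp ℂ 2 tau →L[ℂ] Lp ℂ 2 μ :=
  LinearMap.mkContinuous
    { toFun := fun f => (h.memLp_T f).toLp _
      map_add' := by
        intro f g
        apply Lp.ext
        have h1 := (ae_restrict_iff' h.mB).mp (h.ae_T (Lp.coeFn_add f g))
        filter_upwards [(h.memLp_T (f + g)).coeFn_toLp, (h.memLp_T f).coeFn_toLp,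
          (h.memLp_T g).coeFn_toLp, h1,
          Lp.coeFn_add ((h.memLp_T f).toLp _) ((h.memLp_T g).toLp _)] with y e1 e2 e3 e4 e5
        rw [e1, e5, Pi.add_apply, e2, e3]
        by_cases hy : y ∈ B
        · simp only [indicator_of_mem hy]
          exact e4 hy
        · simp only [indicator_of_notMem hy, add_zero]
      map_smul' := by
        intro z f
        apply Lp.ext
        have h1 := (ae_restrict_iff' h.mB).mp (h.ae_T (Lp.coeFn_smul z f))
        filter_upwards [(h.memLp_T (z • f)).coeFn_toLp, (h.memLp_T f).coeFn_toLp,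
          h1, Lp.coeFn_smul z ((h.memLp_T f).toLp _)] with y e1 e2 e3 e4
        rw [e1, RingHom.id_apply, e4, Pi.smul_apply, e2]
        by_cases hy : y ∈ B
        · simp only [indicator_of_mem hy]
          exact e3 hy
        · simp only [indicator_of_notMem hy, smul_zero] }
    (((μ B) ^ (1 / (2 : ℝ≥0∞)).toReal).toReal) (by
      intro f
      show ‖(h.memLp_T f).toLp _‖ ≤ _
      rw [Lp.norm_toLp, Lp.norm_def, ← ENNReal.toReal_mul]
      apply ENNReal.toReal_mono
      · refine ENNReal.mul_ne_top ?_ (Lp.eLpNorm_ne_top f)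
        exact ENNReal.rpow_ne_top_of_nonneg ENNReal.toReal_nonneg h.fin
      · rw [eLpNorm_indicator_eq_eLpNorm_restrict h.mB,
          ← eLpNorm_map_measure _ h.mT.aemeasurable, h.map_T,
          eLpNorm_smul_measure_of_ne_top (by norm_num)]
        · rw [smul_eq_mul]
        · rw [h.map_T]
          exact (Lp.aestronglyMeasurable f).smul_measure _)

theorem Piece.V_ae (h : Piece μ B S T) (ξ : Lp ℂ 2 μ) : (h.V ξ : Y → ℂ) =ᵐ[tau] ξ ∘ S :=
  (h.memLp_S ξ).coeFn_toLp

theorem Piece.W_ae (h : Piece μ B S T) (f : Lp ℂ 2 tau) :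
    (h.W f : X → ℂ) =ᵐ[μ] B.indicator (f ∘ T) :=
  (h.memLp_T f).coeFn_toLp

theorem Piece.Ex_V (h : Piece μ B S T) : Ex (μ B)⁻¹ h.V := by
  intro ξ
  have hm : MeasurableSet {x | ξ x ≠ 0} :=
    (Lp.stronglyMeasurable ξ).measurable (measurableSet_singleton 0).compl
  have h1 : tau {y | (h.V ξ : Y → ℂ) y ≠ 0} = tau (S ⁻¹' {x | ξ x ≠ 0}) := by
    apply measure_congr
    filter_upwards [h.V_ae ξ] with y hy
    apply propext
    show (h.V ξ y ≠ 0) ↔ (ξ (S y) ≠ 0)
    rw [hy]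
    rfl
  rw [h1, ← Measure.map_apply h.mS hm, h.map, Measure.smul_apply, smul_eq_mul]
  gcongr
  exact Measure.restrict_le_self

theorem Piece.Ex_W (h : Piece μ B S T) : Ex (μ B) h.W := by
  intro f
  have hm : MeasurableSet {y | f y ≠ 0} :=
    (Lp.stronglyMeasurable f).measurable (measurableSet_singleton 0).compl
  have h1 : μ {x | (h.W f : X → ℂ) x ≠ 0} = μ (T ⁻¹' {y | f y ≠ 0} ∩ B) := by
    apply measure_congr
    filter_upwards [h.W_ae f] with x hx
    apply propext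
    show (h.W f x ≠ 0) ↔ (f (T x) ≠ 0 ∧ x ∈ B)
    rw [hx]
    by_cases hxB : x ∈ B
    · simp [indicator_of_mem hxB, hxB]
    · simp [indicator_of_notMem hxB, hxB]
  rw [h1, ← Measure.restrict_apply (h.mT hm), ← Measure.map_apply h.mT hm, h.map_T]
  rfl

theorem Piece.inner_W (h : Piece μ B S T) (f : Lp ℂ 2 tau) (ξ : Lp ℂ 2 μ) :
    ⟪h.W f, ξ⟫_ℂ = ((μ B).toReal : ℂ) * ⟪f, h.V ξ⟫_ℂ := by
  rw [L2.inner_def, L2.inner_def]
  have e1 : ∫ x, ⟪(h.W f : X → ℂ) x, ξ x⟫_ℂ ∂μ = ∫ x in B, ⟪f (T x), ξ x⟫_ℂ ∂μ := by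
    rw [← integral_indicator h.mB]
    apply integral_congr_ae
    filter_upwards [h.W_ae f] with x hx
    rw [hx]
    by_cases hxB : x ∈ B
    · simp [hxB]
    · simp [hxB]
  have e2 : ∫ y, ⟪f y, (h.V ξ : Y → ℂ) y⟫_ℂ ∂tau = ∫ y, ⟪f (T (S y)), ξ (S y)⟫_ℂ ∂tau := by
    apply integral_congr_ae
    filter_upwards [h.V_ae ξ, h.inv] with y hy hy2
    rw [hy, hy2]
    rfl
  have hae : AEStronglyMeasurable (fun x => ⟪f (T x), ξ x⟫_ℂ) (Measure.map S tau) := by
    refine AEStronglyMeasurable.inner ?_ ?_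
    · exact ((Lp.stronglyMeasurable f).comp_measurable h.mT).aestronglyMeasurable
    · exact (Lp.stronglyMeasurable ξ).aestronglyMeasurable
  have e3 : ∫ y, ⟪f (T (S y)), ξ (S y)⟫_ℂ ∂tau =
      ∫ x, ⟪f (T x), ξ x⟫_ℂ ∂(Measure.map S tau) := (integral_map h.mS.aemeasurable hae).symm
  rw [e1, e2, e3, h.restrict_eq, integral_smul_measure]
  exact Complex.real_smul

theorem Piece.W_adj (h : Piece μ B S T) :
    ContinuousLinearMap.adjoint h.W = ((μ B).toReal : ℂ) • h.V := by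
  symm
  rw [ContinuousLinearMap.eq_adjoint_iff]
  intro ξ f
  show ⟪((μ B).toReal : ℂ) • h.V ξ, f⟫_ℂ = ⟪ξ, h.W f⟫_ℂ
  rw [← inner_conj_symm ξ, h.inner_W, inner_smul_left, map_mul, inner_conj_symm]

theorem Piece.V_adj (h : Piece μ B S T) :
    ContinuousLinearMap.adjoint h.V = ((μ B).toReal : ℂ)⁻¹ • h.W := by
  have hc : ((μ B).toReal : ℂ) ≠ 0 := by
    exact_mod_cast (ENNReal.toReal_pos h.pos h.fin).ne'
  have h1 : h.V = ((μ B).toReal : ℂ)⁻¹ • ContinuousLinearMap.adjoint h.W := by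
    rw [h.W_adj, smul_smul, inv_mul_cancel₀ hc, one_smul]
  rw [h1, map_smulₛₗ, ContinuousLinearMap.adjoint_adjoint]
  congr 1
  rw [map_inv₀, Complex.conj_ofReal]

theorem Piece.W_one (h : Piece μ B S T) :
    h.W one' = indicatorConstLp 2 h.mB h.fin (1 : ℂ) := by
  apply Lp.ext
  have h1 := (ae_restrict_iff' h.mB).mp (h.ae_T one_ae)
  filter_upwards [h.W_ae one', h1, indicatorConstLp_coeFn (p := 2) (hs := h.mB) (hμs := h.fin)
    (c := (1 : ℂ))] with x e1 e2 e3
  rw [e1, e3]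
  by_cases hx : x ∈ B
  · simp only [indicator_of_mem hx]
    exact e2 hx
  · simp only [indicator_of_notMem hx]

/-- rank-one operators -/
noncomputable def r1 {H : Type*} [NormedAddCommGroup H] [InnerProductSpace ℂ H] (x y : H) :
    H →L[ℂ] H := (innerSL ℂ y).smulRight x

theorem r1_apply {H : Type*} [NormedAddCommGroup H] [InnerProductSpace ℂ H] (x y z : H) :
    r1 x y z = ⟪y, z⟫_ℂ • x := rfl

/-- the operators with finite support expansion -/
def Adm (μ : Measure X) : Submodule ℂ (Lp ℂ 2 μ →L[ℂ] Lp ℂ 2 μ) where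
  carrier := {a | ∃ c : ℝ≥0, Ex (c : ℝ≥0∞) a ∧ Ex (c : ℝ≥0∞) (ContinuousLinearMap.adjoint a)}
  add_mem' := by
    rintro a b ⟨c, h1, h2⟩ ⟨d, h3, h4⟩
    refine ⟨c + d, ?_, ?_⟩
    · rw [ENNReal.coe_add]
      exact h1.add h3
    · rw [map_add, ENNReal.coe_add]
      exact h2.add h4
  zero_mem' := by
    refine ⟨0, ?_, ?_⟩
    · intro f
      have : μ {x | (0 : Lp ℂ 2 μ →L[ℂ] Lp ℂ 2 μ) f x ≠ 0} = 0 := by
        rw [← nonpos_iff_eq_zero, ← measure_empty (μ := μ)]
        apply measure_mono_ae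
        filter_upwards [Lp.coeFn_zero ℂ 2 μ] with x hx hxx
        exact absurd hx hxx
      rw [this]
      exact zero_le
    · rw [map_zero]
      intro f
      have : μ {x | (0 : Lp ℂ 2 μ →L[ℂ] Lp ℂ 2 μ) f x ≠ 0} = 0 := by
        rw [← nonpos_iff_eq_zero, ← measure_empty (μ := μ)]
        apply measure_mono_ae
        filter_upwards [Lp.coeFn_zero ℂ 2 μ] with x hx hxx
        exact absurd hx hxx
      rw [this]
      exact zero_le
  smul_mem' := by
    rintro z a ⟨c, h1, h2⟩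
    refine ⟨c, h1.smul z, ?_⟩
    rw [map_smulₛₗ]
    exact h2.smul _

theorem two_pieces {B C : Set X} {S1 S2 : Y → X} {T1 T2 : X → Y} (h1 : Piece μ B S1 T1)
    (h2 : Piece μ C S2 T2) :
    r1 (indicatorConstLp 2 h1.mB h1.fin (1 : ℂ)) (indicatorConstLp 2 h2.mB h2.fin (1 : ℂ)) ∈
      (Adm μ).topologicalClosure := by
  set a : ℕ → (Lp ℂ 2 μ →L[ℂ] Lp ℂ 2 μ) := fun n => h1.W.comp ((avg ^ n).comp h2.V) with ha
  have hmem : ∀ n, a n ∈ Adm μ := by
    intro n
    have e1 : Ex (μ B * (5 ^ n * (μ C)⁻¹)) (a n) := (h2.Ex_V.comp (Ex_avg_pow n)).comp h1.Ex_W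
    have e2 : ContinuousLinearMap.adjoint (a n) =
        (((μ C).toReal : ℂ)⁻¹ * ((μ B).toReal : ℂ)) • (h2.W.comp ((avg ^ n).comp h1.V)) := by
      simp only [ha]
      rw [ContinuousLinearMap.adjoint_comp, ContinuousLinearMap.adjoint_comp, h2.V_adj,
        h1.W_adj, avg_pow_adj]
      ext1 f
      simp only [ContinuousLinearMap.comp_apply, _root_.smul_apply, map_smul,
        smul_smul, mul_comm]
    have e3 : Ex (μ C * (5 ^ n * (μ B)⁻¹)) (ContinuousLinearMap.adjoint (a n)) := by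
      rw [e2]
      exact ((h1.Ex_V.comp (Ex_avg_pow n)).comp h2.Ex_W).smul _
    have f1 : μ B * (5 ^ n * (μ C)⁻¹) ≠ ∞ :=
      ENNReal.mul_ne_top h1.fin (ENNReal.mul_ne_top (by simp) (ENNReal.inv_ne_top.mpr h2.pos))
    have f2 : μ C * (5 ^ n * (μ B)⁻¹) ≠ ∞ :=
      ENNReal.mul_ne_top h2.fin (ENNReal.mul_ne_top (by simp) (ENNReal.inv_ne_top.mpr h1.pos))
    refine ⟨(μ B * (5 ^ n * (μ C)⁻¹)).toNNReal + (μ C * (5 ^ n * (μ B)⁻¹)).toNNReal, ?_, ?_⟩
    · refine e1.mono ?_
      rw [ENNReal.coe_add, ENNReal.coe_toNNReal f1]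
      exact le_self_add
    · refine e3.mono ?_
      rw [ENNReal.coe_add, ENNReal.coe_toNNReal f2]
      exact le_add_self
  have hlim : Tendsto a atTop (𝓝 (h1.W.comp (P0.comp h2.V))) := by
    have hc : Continuous (fun b : Lp ℂ 2 tau →L[ℂ] Lp ℂ 2 tau => h1.W.comp (b.comp h2.V)) :=
      continuous_const.clm_comp (continuous_id.clm_comp continuous_const)
    exact (hc.tendsto P0).comp avg_tendsto
  have hcl : h1.W.comp (P0.comp h2.V) ∈ (Adm μ).topologicalClosure :=
    mem_closure_of_tendsto hlim (Eventually.of_forall hmem)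
  have heq : r1 (indicatorConstLp 2 h1.mB h1.fin (1 : ℂ))
      (indicatorConstLp 2 h2.mB h2.fin (1 : ℂ)) =
      ((μ C).toReal : ℂ) • h1.W.comp (P0.comp h2.V) := by
    ext1 ξ
    rw [r1_apply, ← h1.W_one, ← h2.W_one, h2.inner_W]
    show _ = ((μ C).toReal : ℂ) • h1.W (P0 (h2.V ξ))
    rw [P0_apply, map_smul, smul_smul]
  rw [heq]
  exact (Adm μ).topologicalClosure.smul_mem _ hcl

end R496.SE
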