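import Mathlib
import Pool.Agent.R496.SE.Trans

/-!
Compact operators and the closure of the operators with finite support expansion.
-/

namespace R496.SE

open MeasureTheory Filter Topology Set
open scoped InnerProductSpace ENNReal NNReal ComplexConjugate

section compact

variable {H : Type*} [NormedAddCommGroup H] [InnerProductSpace ℂ H] [CompleteSpace H]

theorem compact_mem (K : Submodule ℂ (H →L[ℂ] H)) (hK : IsClosed (K : Set (H →L[ℂ] H)))
    (hr : ∀ x y, r1 x y ∈ K) (k : H →L[ℂ] H) (hk : IsCompactOperator k) : k ∈ K := by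
  have : k ∈ closure (K : Set (H →L[ℂ] H)) := by
    rw [Metric.mem_closure_iff]
    intro ε hε
    have hc : IsCompact (closure (k '' Metric.closedBall 0 1)) :=
      hk.isCompact_closure_image_closedBall 1
    obtain ⟨t, -, htf, ht⟩ := hc.finite_cover_balls (half_pos hε)
    set F : Submodule ℂ H := Submodule.span ℂ t with hF
    have : FiniteDimensional ℂ F := FiniteDimensional.span_of_finite ℂ htf
    set b := stdOrthonormalBasis ℂ F with hb
    set p : H →L[ℂ] H := ∑ j, r1 ((b j : F) : H) (ContinuousLinearMap.adjoint k (b j : F)) with hp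
    refine ⟨p, K.sum_mem fun j _ => hr _ _, ?_⟩
    have hpe : ∀ x, p x = F.starProjection (k x) := by
      intro x
      rw [hp, _root_.sum_apply]
      simp only [r1_apply, ContinuousLinearMap.adjoint_inner_left]
      rw [Submodule.starProjection_apply, b.orthogonalProjectionOnto_apply_eq_sum]
      simp
    rw [dist_eq_norm]
    refine lt_of_le_of_lt ?_ (half_lt_self hε)
    refine ContinuousLinearMap.opNorm_le_of_unit_norm (half_pos hε).le fun x hx => ?_
    rw [_root_.sub_apply, hpe]
    have hmem : k x ∈ closure (k '' Metric.closedBall 0 1) :=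
      subset_closure ⟨x, by simp [hx], rfl⟩
    obtain ⟨y, hy, hxy⟩ := mem_iUnion₂.mp (ht hmem)
    have hyF : y ∈ F := Submodule.subset_span hy
    have h1 : ‖k x - F.starProjection (k x)‖ ≤ ‖k x - y‖ := by
      rw [F.starProjection_minimal]
      refine ciInf_le ⟨0, ?_⟩ (⟨y, hyF⟩ : F)
      rintro _ ⟨z, rfl⟩
      exact norm_nonneg _
    refine h1.trans ?_
    rw [← dist_eq_norm]
    exact (Metric.mem_ball.mp hxy).le
  rwa [hK.closure_eq] at this

theorem r1_add_left (x x' y : H) : r1 (x + x') y = r1 x y + r1 x' y := by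
  ext1 z; simp [r1_apply]

theorem r1_smul_left (c : ℂ) (x y : H) : r1 (c • x) y = c • r1 x y := by
  ext1 z
  rw [r1_apply, _root_.smul_apply, r1_apply, smul_comm]

theorem r1_add_right (x y y' : H) : r1 x (y + y') = r1 x y + r1 x y' := by
  ext1 z; simp [r1_apply, inner_add_left, add_smul]

theorem r1_smul_right (c : ℂ) (x y : H) : r1 x (c • y) = conj c • r1 x y := by
  ext1 z
  rw [r1_apply, _root_.smul_apply, r1_apply, inner_smul_left, mul_smul]

theorem r1_norm (x y : H) : ‖r1 x y‖ = ‖y‖ * ‖x‖ := by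
  unfold r1
  rw [ContinuousLinearMap.norm_smulRight_apply, innerSL_apply_norm]

theorem r1_adj (x y : H) : ContinuousLinearMap.adjoint (r1 x y) = r1 y x := by
  symm
  rw [ContinuousLinearMap.eq_adjoint_iff]
  intro f g
  rw [r1_apply, r1_apply, inner_smul_left, inner_smul_right, inner_conj_symm, mul_comm]

theorem r1_compact (x y : H) : IsCompactOperator (r1 x y) := by
  have h : IsCompactOperator (innerSL ℂ y) := by
    have h1 : IsCompactOperator (ContinuousLinearMap.id ℂ ℂ) := isCompactOperator_id
    exact h1.comp_clm (innerSL ℂ y)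
  exact h.clm_comp ((ContinuousLinearMap.id ℂ ℂ).smulRight x)

/-- rank-one operators from a total set -/
theorem r1_mem_of_total (K : Submodule ℂ (H →L[ℂ] H)) (hK : IsClosed (K : Set (H →L[ℂ] H)))
    (E : Set H) (hE : (Submodule.span ℂ E).topologicalClosure = ⊤)
    (hr : ∀ x ∈ E, ∀ y ∈ E, r1 x y ∈ K) : ∀ x y, r1 x y ∈ K := by
  have hcx : ∀ y : H, Continuous fun x : H => r1 x y := by
    intro y
    refine (LipschitzWith.of_dist_le_mul (K := ‖y‖₊) ?_).continuous
    intro a b
    rw [dist_eq_norm, dist_eq_norm, coe_nnnorm]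
    have : r1 a y - r1 b y = r1 (a - b) y := by
      rw [sub_eq_add_neg, sub_eq_add_neg, r1_add_left]
      congr 1
      have := r1_smul_left (-1) b y
      simpa using this.symm
    rw [this, r1_norm]
  have hcy : ∀ x : H, Continuous fun y : H => r1 x y := by
    intro x
    refine (LipschitzWith.of_dist_le_mul (K := ‖x‖₊) ?_).continuous
    intro a b
    rw [dist_eq_norm, dist_eq_norm, coe_nnnorm]
    have : r1 x a - r1 x b = r1 x (a - b) := by
      rw [sub_eq_add_neg, sub_eq_add_neg, r1_add_right]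
      congr 1
      have := r1_smul_right (-1) x b
      simpa using this.symm
    rw [this, r1_norm, mul_comm]
  -- first variable
  have h1 : ∀ y ∈ E, ∀ x, r1 x y ∈ K := by
    intro y hy x
    have hx : x ∈ (Submodule.span ℂ E).topologicalClosure := by rw [hE]; trivial
    have hcl : IsClosed {x | r1 x y ∈ K} := hK.preimage (hcx y)
    have hsub : (Submodule.span ℂ E : Set H) ⊆ {x | r1 x y ∈ K} := by
      intro z hz
      induction hz using Submodule.span_induction with
      | mem z hz => exact hr z hz y hy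
      | zero =>
        have := r1_smul_left 0 (0 : H) y
        rw [zero_smul, zero_smul] at this
        show r1 0 y ∈ K
        rw [this]
        exact K.zero_mem
      | add a b _ _ ha hb =>
        show r1 (a + b) y ∈ K
        rw [r1_add_left]
        exact K.add_mem ha hb
      | smul c a _ ha =>
        show r1 (c • a) y ∈ K
        rw [r1_smul_left]
        exact K.smul_mem _ ha
    exact hcl.closure_subset_iff.mpr hsub hx
  intro x y
  have hy : y ∈ (Submodule.span ℂ E).topologicalClosure := by rw [hE]; trivial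
  have hcl : IsClosed {y | r1 x y ∈ K} := hK.preimage (hcy x)
  have hsub : (Submodule.span ℂ E : Set H) ⊆ {y | r1 x y ∈ K} := by
    intro z hz
    induction hz using Submodule.span_induction with
    | mem z hz => exact h1 z hz x
    | zero =>
      have := r1_smul_right 0 x (0 : H)
      rw [map_zero, zero_smul, zero_smul] at this
      show r1 x 0 ∈ K
      rw [this]
      exact K.zero_mem
    | add a b _ _ ha hb =>
      show r1 x (a + b) ∈ K
      rw [r1_add_right]
      exact K.add_mem ha hb
    | smul c a _ ha =>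
      show r1 x (c • a) ∈ K
      rw [r1_smul_right]
      exact K.smul_mem _ ha
  exact hcl.closure_subset_iff.mpr hsub hy

end compact

variable {X : Type*} [MeasurableSpace X] {μ : Measure X}

/-- a space isomorphic to a standard Borel space is standard Borel -/
theorem sbs_transfer {α β : Type*} [MeasurableSpace α] [MeasurableSpace β]
    [h : StandardBorelSpace β] (e : α ≃ᵐ β) : StandardBorelSpace α := by
  obtain ⟨τ, hb, hp⟩ := h.polish
  let _ : TopologicalSpace α := TopologicalSpace.induced e τ
  have hind : Topology.IsInducing e := ⟨rfl⟩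
  let e' : α ≃ₜ β := e.toEquiv.toHomeomorphOfIsInducing hind
  have hpol : PolishSpace α := e'.isClosedEmbedding.polishSpace
  have hbor : BorelSpace α := by
    refine ⟨?_⟩
    have h1 : borel α = (borel β).comap e := borel_comap
    rw [h1, ← hb.measurable_eq]
    exact e.measurableEmbedding.comap_eq.symm
  exact ⟨_, hbor, hpol⟩

/-- a measurable subset of a standard Borel piece is standard Borel -/
theorem sbs_subset {X : Type*} [MeasurableSpace X] {C P : Set X} (hC : MeasurableSet C)
    (hP : StandardBorelSpace P) (hCi : C ⊆ P) : StandardBorelSpace C := by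
  have hC' : MeasurableSet ((↑) ⁻¹' C : Set P) := measurable_subtype_coe hC
  have := hC'.standardBorel
  let e : C ≃ᵐ ((↑) ⁻¹' C : Set P) :=
    { toFun := fun x => ⟨⟨x.1, hCi x.2⟩, x.2⟩
      invFun := fun x => ⟨x.1.1, x.2⟩
      left_inv := fun x => rfl
      right_inv := fun x => rfl
      measurable_toFun := by
        apply Measurable.subtype_mk
        apply Measurable.subtype_mk
        exact measurable_subtype_coe
      measurable_invFun := by
        apply Measurable.subtype_mk
        exact measurable_subtype_coe.comp measurable_subtype_coe }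
  exact sbs_transfer e

/-- standard atomless pieces are isomorphic to the torus -/
theorem exists_piece (A : Set X) (hA : MeasurableSet A) (hst : StandardBorelSpace A)
    (h0 : μ A ≠ 0) (hfin : μ A ≠ ∞) (hat : ∀ x ∈ A, μ {x} = 0) :
    ∃ S T, Piece μ A S T := by
  set ν : Measure A := (μ A)⁻¹ • (μ.comap Subtype.val) with hν
  have hcu : (μ.comap (Subtype.val : A → X)) univ = μ A := by
    rw [comap_subtype_coe_apply hA μ univ, image_univ, Subtype.range_coe]
  have : IsProbabilityMeasure ν := by
    refine ⟨?_⟩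
    rw [hν, Measure.smul_apply, hcu, smul_eq_mul, ENNReal.inv_mul_cancel h0 hfin]
  have : NullSingletonClass ν := by
    refine ⟨fun x => ?_⟩
    rw [hν, Measure.smul_apply, comap_subtype_coe_apply hA μ, image_singleton, hat x x.2,
      smul_zero]
  obtain ⟨S, T, hS, hT, hm, hinv⟩ := iso_torus ν
  classical
  refine ⟨Subtype.val ∘ S, fun x => if hx : x ∈ A then T ⟨x, hx⟩ else 0, hA, h0, hfin,
    measurable_subtype_coe.comp hS, ?_, ?_, ?_⟩
  · exact Measurable.dite (s := A) hT measurable_const hA
  · rw [← Measure.map_map measurable_subtype_coe hS, hm, hν, Measure.map_smul,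
      map_comap_subtype_coe hA]
  · filter_upwards [hinv] with y hy
    simp only [Function.comp_apply, Subtype.coe_prop, dite_true]
    exact hy

/-- indicator functions of points with positive measure -/
theorem atom_mem {b c : X} (hb : MeasurableSet ({b} : Set X)) (hc : MeasurableSet ({c} : Set X))
    (fb : μ {b} ≠ ∞) (fc : μ {c} ≠ ∞) (pb : μ {b} ≠ 0) (pc : μ {c} ≠ 0) :
    r1 (indicatorConstLp 2 hb fb (1 : ℂ)) (indicatorConstLp 2 hc fc (1 : ℂ)) ∈ Adm μ := by
  have key : ∀ {b c : X} (hb : MeasurableSet ({b} : Set X)) (hc : MeasurableSet ({c} : Set X))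
      (fb : μ {b} ≠ ∞) (fc : μ {c} ≠ ∞) (pb : μ {b} ≠ 0) (pc : μ {c} ≠ 0),
      Ex (μ {b} * (μ {c})⁻¹)
        (r1 (indicatorConstLp 2 hb fb (1 : ℂ)) (indicatorConstLp 2 hc fc (1 : ℂ))) := by
    intro b c hb hc fb fc pb pc f
    rw [r1_apply]
    by_cases hf : f c = 0
    · have h1 : ⟪indicatorConstLp 2 hc fc (1 : ℂ), f⟫_ℂ = 0 := by
        rw [L2.inner_indicatorConstLp_one]
        rw [setIntegral_congr_fun (g := fun _ => (0 : ℂ)) hc]
        · simp
        · intro x hx
          rw [mem_singleton_iff] at hx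
          rw [hx, hf]
      rw [h1, zero_smul]
      have : μ {x | (0 : Lp ℂ 2 μ) x ≠ 0} = 0 := by
        rw [← nonpos_iff_eq_zero, ← measure_empty (μ := μ)]
        apply measure_mono_ae
        filter_upwards [Lp.coeFn_zero ℂ 2 μ] with x hx hxx
        exact absurd hx hxx
      rw [this]
      exact zero_le
    · have h1 : μ {x | ((⟪indicatorConstLp 2 hc fc (1 : ℂ), f⟫_ℂ •
          indicatorConstLp 2 hb fb (1 : ℂ) : Lp ℂ 2 μ) : X → ℂ) x ≠ 0} ≤ μ {b} := by
        apply measure_mono_ae
        filter_upwards [Lp.coeFn_smul (⟪indicatorConstLp 2 hc fc (1 : ℂ), f⟫_ℂ)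
          (indicatorConstLp 2 hb fb (1 : ℂ)), indicatorConstLp_coeFn (p := 2) (hs := hb)
          (hμs := fb) (c := (1 : ℂ))] with x e1 e2 hx
        by_contra hcon
        apply hx
        have hcon' : x ∉ ({b} : Set X) := hcon
        rw [e1, Pi.smul_apply, e2, indicator_of_notMem hcon', smul_zero]
      have h2 : μ {c} ≤ μ {x | f x ≠ 0} := by
        apply measure_mono
        intro x hx
        rw [mem_singleton_iff] at hx
        rw [hx]
        exact hf
      calc _ ≤ μ {b} := h1
        _ = μ {b} * (μ {c})⁻¹ * μ {c} := by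
            rw [mul_assoc, ENNReal.inv_mul_cancel pc fc, mul_one]
        _ ≤ _ := by gcongr
  have f1 : μ {b} * (μ {c})⁻¹ ≠ ∞ := ENNReal.mul_ne_top fb (ENNReal.inv_ne_top.mpr pc)
  have f2 : μ {c} * (μ {b})⁻¹ ≠ ∞ := ENNReal.mul_ne_top fc (ENNReal.inv_ne_top.mpr pb)
  refine ⟨(μ {b} * (μ {c})⁻¹).toNNReal + (μ {c} * (μ {b})⁻¹).toNNReal, ?_, ?_⟩
  · refine (key hb hc fb fc pb pc).mono ?_
    rw [ENNReal.coe_add, ENNReal.coe_toNNReal f1]
    exact le_self_add
  · rw [r1_adj]
    refine (key hc hb fc fb pc pb).mono ?_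
    rw [ENNReal.coe_add, ENNReal.coe_toNNReal f2]
    exact le_add_self

/-- orthogonality to a set of indicator functions forces the vector to vanish -/
theorem total_of_orth (E : Set (Lp ℂ 2 μ)) (h : ∀ f : Lp ℂ 2 μ, (∀ e ∈ E, ⟪e, f⟫_ℂ = 0) → f = 0) :
    (Submodule.span ℂ E).topologicalClosure = ⊤ := by
  rw [Submodule.topologicalClosure_eq_top_iff, Submodule.eq_bot_iff]
  intro f hf
  apply h
  intro e he
  exact (Submodule.mem_orthogonal _ f).mp hf e (Submodule.subset_span he)

/-- a function in `L²` whose integrals over the measurable subsets of `P` vanish is zero a.e. on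
`P` -/
theorem ae_zero_on (P : Set X) (hP : MeasurableSet P) (hfin : μ P ≠ ∞) (f : Lp ℂ 2 μ)
    (h : ∀ (A : Set X) (hA : MeasurableSet A) (hf : μ A ≠ ∞), A ⊆ P →
      ⟪indicatorConstLp 2 hA hf (1 : ℂ), f⟫_ℂ = 0) : f =ᵐ[μ.restrict P] 0 := by
  have : IsFiniteMeasure (μ.restrict P) := ⟨by simpa using lt_top_iff_ne_top.mpr hfin⟩
  have hint : Integrable f (μ.restrict P) :=
    ((Lp.memLp f).restrict P).integrable (by norm_num)
  apply hint.ae_eq_zero_of_forall_setIntegral_eq_zero
  intro s hs _
  have hfs : μ (s ∩ P) ≠ ∞ := ne_top_of_le_ne_top hfin (measure_mono inter_subset_right)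
  have h1 := h (s ∩ P) (hs.inter hP) hfs inter_subset_right
  rw [L2.inner_indicatorConstLp_one] at h1
  rw [Measure.restrict_restrict hs]
  exact h1

theorem indicator_zero_of_null {A : Set X} (hA : MeasurableSet A) (hf : μ A ≠ ∞)
    (h0 : μ A = 0) : indicatorConstLp 2 hA hf (1 : ℂ) = 0 := by
  rw [← norm_eq_zero, norm_indicatorConstLp (by norm_num) (by norm_num)]
  simp [Measure.real, h0]

/-- atomless case -/
theorem atomless_case {I : Type*} (P : I → Set X) (hm : ∀ i, MeasurableSet (P i))
    (hst : ∀ i, StandardBorelSpace (P i)) (hfin : ∀ i, μ (P i) ≠ ∞)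
    (hsum : ∀ A, MeasurableSet A → μ A = ∑' i, μ (A ∩ P i)) (hat : ∀ x, μ {x} = 0)
    (k : Lp ℂ 2 μ →L[ℂ] Lp ℂ 2 μ) (hk : IsCompactOperator k) :
    k ∈ (Adm μ).topologicalClosure := by
  refine compact_mem _ (Adm μ).isClosed_topologicalClosure ?_ k hk
  set E : Set (Lp ℂ 2 μ) := {f | ∃ (A : Set X) (hA : MeasurableSet A) (hf : μ A ≠ ∞) (i : I),
    A ⊆ P i ∧ f = indicatorConstLp 2 hA hf (1 : ℂ)} with hE
  refine r1_mem_of_total _ (Adm μ).isClosed_topologicalClosure E ?_ ?_
  · apply total_of_orth
    intro f hf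
    have h1 : ∀ i, f =ᵐ[μ.restrict (P i)] 0 := fun i =>
      ae_zero_on (P i) (hm i) (hfin i) f fun A hA hfA hAP => hf _ ⟨A, hA, hfA, i, hAP, rfl⟩
    apply Lp.ext
    have h2 : μ {x | f x ≠ 0} = 0 := by
      have hmf : MeasurableSet {x | f x ≠ 0} :=
        (Lp.stronglyMeasurable f).measurable (measurableSet_singleton 0).compl
      rw [hsum _ hmf, ENNReal.tsum_eq_zero]
      intro i
      have := h1 i
      rw [Filter.EventuallyEq, ae_iff, Measure.restrict_apply' (hm i)] at this
      exact this
    filter_upwards [ae_iff.mpr h2, Lp.coeFn_zero ℂ 2 μ] with x hx h0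
    rw [hx, h0]
    rfl
  · rintro _ ⟨A, hA, hfA, i, hAi, rfl⟩ _ ⟨B, hB, hfB, j, hBj, rfl⟩
    by_cases hA0 : μ A = 0
    · rw [indicator_zero_of_null hA hfA hA0]
      have := r1_smul_left 0 (0 : Lp ℂ 2 μ) (indicatorConstLp 2 hB hfB (1 : ℂ))
      rw [zero_smul, zero_smul] at this
      rw [this]
      exact Submodule.zero_mem _
    by_cases hB0 : μ B = 0
    · rw [indicator_zero_of_null hB hfB hB0]
      have := r1_smul_right 0 (indicatorConstLp 2 hA hfA (1 : ℂ)) (0 : Lp ℂ 2 μ)
      rw [map_zero, zero_smul, zero_smul] at this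
      rw [this]
      exact Submodule.zero_mem _
    obtain ⟨S1, T1, p1⟩ := exists_piece A hA (sbs_subset hA (hst i) hAi) hA0 hfA (fun x _ => hat x)
    obtain ⟨S2, T2, p2⟩ := exists_piece B hB (sbs_subset hB (hst j) hBj) hB0 hfB (fun x _ => hat x)
    exact two_pieces p1 p2

/-- purely atomic case -/
theorem atomic_case (hms : ∀ x : X, MeasurableSet ({x} : Set X)) (hfx : ∀ x : X, μ {x} ≠ ∞)
    (hat : ∀ A, MeasurableSet A → μ A ≠ 0 → ∃ x ∈ A, μ {x} ≠ 0)
    (k : Lp ℂ 2 μ →L[ℂ] Lp ℂ 2 μ) (hk : IsCompactOperator k) :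
    k ∈ (Adm μ).topologicalClosure := by
  have : MeasurableSingletonClass X := ⟨hms⟩
  refine compact_mem _ (Adm μ).isClosed_topologicalClosure ?_ k hk
  set E : Set (Lp ℂ 2 μ) := {f | ∃ x : X, μ {x} ≠ 0 ∧
    f = indicatorConstLp 2 (hms x) (hfx x) (1 : ℂ)} with hE
  refine r1_mem_of_total _ (Adm μ).isClosed_topologicalClosure E ?_ ?_
  · apply total_of_orth
    intro f hf
    have h1 : ∀ x, μ {x} ≠ 0 → f x = 0 := by
      intro x hx
      have h2 := hf _ ⟨x, hx, rfl⟩
      rw [L2.inner_indicatorConstLp_one, integral_singleton] at h2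
      rcases smul_eq_zero.mp h2 with h3 | h3
      · exfalso
        have := (ENNReal.toReal_pos hx (hfx x)).ne'
        exact this h3
      · exact h3
    apply Lp.ext
    have h2 : μ {x | f x ≠ 0} = 0 := by
      have hmf : MeasurableSet {x | f x ≠ 0} :=
        (Lp.stronglyMeasurable f).measurable (measurableSet_singleton 0).compl
      by_contra hcon
      obtain ⟨x, hx, hx0⟩ := hat _ hmf hcon
      exact hx (h1 x hx0)
    filter_upwards [ae_iff.mpr h2, Lp.coeFn_zero ℂ 2 μ] with x hx h0
    rw [hx, h0]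
    rfl
  · rintro _ ⟨x, hx, rfl⟩ _ ⟨y, hy, rfl⟩
    exact (Adm μ).le_topologicalClosure (atom_mem _ _ _ _ hx hy)

/-- mixed case: an operator between an atom and an atomless part -/
theorem mixed_case (hms : ∀ x : X, MeasurableSet ({x} : Set X)) {b : X}
    (hb : MeasurableSet ({b} : Set X)) (fb : μ {b} ≠ ∞) (pb : μ {b} ≠ 0)
    {A : Set X} (hA : MeasurableSet A) (hst : StandardBorelSpace A)
    (h0 : μ A ≠ 0) (hfin : μ A ≠ ∞) (hat : ∀ x ∈ A, μ {x} = 0) :
    r1 (indicatorConstLp 2 hA hfin (1 : ℂ)) (indicatorConstLp 2 hb fb (1 : ℂ)) ∉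
      (Adm μ).topologicalClosure := by
  have : MeasurableSingletonClass X := ⟨hms⟩
  intro hmem
  set eA := indicatorConstLp 2 hA hfin (1 : ℂ) with heA
  set eb := indicatorConstLp 2 hb fb (1 : ℂ) with heb
  -- the functional vanishes on the closure
  have hcont : Continuous fun a : Lp ℂ 2 μ →L[ℂ] Lp ℂ 2 μ => ⟪eA, a eb⟫_ℂ :=
    continuous_const.inner (ContinuousLinearMap.apply ℂ _ eb).continuous
  have hvan : ∀ a ∈ Adm μ, ⟪eA, a eb⟫_ℂ = 0 := by
    rintro a ⟨c, -, hadj⟩
    -- small subsets
    have hsmall : ∀ (D : Set X) (hD : MeasurableSet D) (hfD : μ D ≠ ∞), c * μ D < μ {b} →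
        ∫ x in D, (a eb : X → ℂ) x ∂μ = 0 := by
      intro D hD hfD hlt
      have h1 : ⟪indicatorConstLp 2 hD hfD (1 : ℂ), a eb⟫_ℂ = ∫ x in D, (a eb : X → ℂ) x ∂μ :=
        L2.inner_indicatorConstLp_one hD hfD (a eb)
      rw [← h1, ← ContinuousLinearMap.adjoint_inner_left, ← inner_conj_symm]
      set g := (ContinuousLinearMap.adjoint a) (indicatorConstLp 2 hD hfD (1 : ℂ)) with hg
      have h2 : μ {x | g x ≠ 0} < μ {b} := by
        refine lt_of_le_of_lt (hadj _) (lt_of_le_of_lt ?_ hlt)
        refine mul_le_mul_right ?_ _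
        apply measure_mono_ae
        filter_upwards [indicatorConstLp_coeFn (p := 2) (hs := hD) (hμs := hfD)
          (c := (1 : ℂ))] with x e1 hx
        by_contra hcon
        apply hx
        have hcon' : x ∉ D := hcon
        rw [e1, indicator_of_notMem hcon']
      have h3 : g b = 0 := by
        by_contra hcon
        apply absurd h2
        push Not
        apply measure_mono
        intro x hx
        rw [mem_singleton_iff] at hx
        rw [hx]
        exact hcon
      rw [heb, L2.inner_indicatorConstLp_one, integral_singleton, h3, smul_zero, map_zero]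
    -- split `A`
    have hIA : IntegrableOn (fun x => (a eb : X → ℂ) x) A μ := by
      have : IsFiniteMeasure (μ.restrict A) := ⟨by simpa using lt_top_iff_ne_top.mpr hfin⟩
      exact ((Lp.memLp (a eb)).restrict A).integrable (by norm_num)
    rw [heA, L2.inner_indicatorConstLp_one]
    set ν : Measure A := (μ A)⁻¹ • (μ.comap Subtype.val) with hν
    have hcu : (μ.comap (Subtype.val : A → X)) univ = μ A := by
      rw [comap_subtype_coe_apply hA μ univ, image_univ, Subtype.range_coe]
    have : IsProbabilityMeasure ν := by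
      refine ⟨?_⟩
      rw [hν, Measure.smul_apply, hcu, smul_eq_mul, ENNReal.inv_mul_cancel h0 hfin]
    have : NullSingletonClass ν := by
      refine ⟨fun x => ?_⟩
      rw [hν, Measure.smul_apply, comap_subtype_coe_apply hA μ, image_singleton, hat x x.2,
        smul_zero]
    obtain ⟨S, T, hS, hT, hm, hinv⟩ := iso_interval ν
    have hTm : Measure.map T ν = volume.restrict (Ioo (0 : ℝ) 1) := by
      rw [← hm, Measure.map_map hT hS]
      have : T ∘ S =ᵐ[volume.restrict (Ioo (0 : ℝ) 1)] id := by
        filter_upwards [ae_restrict_mem measurableSet_Ioo] with t ht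
        exact hinv t ht
      rw [Measure.map_congr this, Measure.map_id]
    -- the sets `A ∩ T⁻¹ J`
    set Q : Set ℝ → Set X := fun J => Subtype.val '' (T ⁻¹' J) with hQ
    have hQm : ∀ J, MeasurableSet J → MeasurableSet (Q J) := fun J hJ =>
      hA.subtype_image (hT hJ)
    have hQμ : ∀ J, MeasurableSet J → μ (Q J) = μ A * volume (J ∩ Ioo (0 : ℝ) 1) := by
      intro J hJ
      have h1 : ν (T ⁻¹' J) = volume (J ∩ Ioo (0 : ℝ) 1) := by
        rw [← Measure.map_apply hT hJ, hTm, Measure.restrict_apply hJ]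
      rw [← h1, hν, Measure.smul_apply, comap_subtype_coe_apply hA μ, smul_eq_mul, ← mul_assoc,
        ENNReal.mul_inv_cancel h0 hfin, one_mul]
    have hQA : ∀ J, Q J ⊆ A := by
      rintro J _ ⟨x, -, rfl⟩
      exact x.2
    obtain ⟨n, hn⟩ : ∃ n : ℕ, c * (μ A * ENNReal.ofReal (1 / ((n : ℝ) + 1))) < μ {b} := by
      have h1 : Tendsto (fun n : ℕ => (c : ℝ≥0∞) * (μ A * ENNReal.ofReal (1 / ((n : ℝ) + 1))))
          atTop (𝓝 (c * (μ A * ENNReal.ofReal 0))) := by
        refine ENNReal.Tendsto.const_mul (ENNReal.Tendsto.const_mul ?_ (Or.inr hfin))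
          (Or.inr ENNReal.coe_ne_top)
        exact ENNReal.tendsto_ofReal tendsto_one_div_add_atTop_nhds_zero_nat
      rw [ENNReal.ofReal_zero, mul_zero, mul_zero] at h1
      exact (h1.eventually (gt_mem_nhds (pos_iff_ne_zero.mpr pb))).exists
    have hstep : ∀ j : ℕ, ∫ x in Q (Iio ((j : ℝ) / (n + 1))), (a eb : X → ℂ) x ∂μ = 0 := by
      intro j
      induction j with
      | zero =>
        apply setIntegral_measure_zero
        rw [hQμ _ measurableSet_Iio]
        have : Iio (((0 : ℕ) : ℝ) / (n + 1)) ∩ Ioo (0 : ℝ) 1 = ∅ := by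
          ext t
          simp only [Nat.cast_zero, zero_div, mem_inter_iff, mem_Iio, mem_Ioo,
            mem_empty_iff_false, iff_false, not_and]
          intro h1 h2
          linarith
        rw [this, measure_empty, mul_zero]
      | succ j ih =>
        have hle : (j : ℝ) / (n + 1) ≤ ((j + 1 : ℕ) : ℝ) / (n + 1) := by
          push_cast
          gcongr
          linarith
        have hun : Q (Iio (((j + 1 : ℕ) : ℝ) / (n + 1))) = Q (Iio ((j : ℝ) / (n + 1))) ∪
            Q (Ico ((j : ℝ) / (n + 1)) (((j + 1 : ℕ) : ℝ) / (n + 1))) := by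
          simp only [hQ]
          rw [← image_union, ← preimage_union, Iio_union_Ico_eq_Iio hle]
        have hdis : Disjoint (Q (Iio ((j : ℝ) / (n + 1))))
            (Q (Ico ((j : ℝ) / (n + 1)) (((j + 1 : ℕ) : ℝ) / (n + 1)))) := by
          rw [disjoint_left]
          rintro _ ⟨x, hx, rfl⟩ ⟨y, hy, hxy⟩
          have : y = x := Subtype.ext hxy
          rw [this] at hy
          have h1 : T x < (j : ℝ) / (n + 1) := hx
          have h2 : (j : ℝ) / (n + 1) ≤ T x := hy.1
          linarith
        rw [hun, setIntegral_union hdis (hQm _ measurableSet_Ico) (hIA.mono_set (hQA _))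
          (hIA.mono_set (hQA _)), ih, zero_add]
        apply hsmall _ (hQm _ measurableSet_Ico)
        · exact ne_top_of_le_ne_top hfin (measure_mono (hQA _))
        · refine lt_of_le_of_lt ?_ hn
          rw [hQμ _ measurableSet_Ico]
          gcongr
          refine (measure_mono inter_subset_left).trans ?_
          rw [Real.volume_Ico]
          apply ENNReal.ofReal_le_ofReal
          push_cast
          rw [← sub_div]
          apply le_of_eq
          congr 1
          ring
    have hfull : ∫ x in A, (a eb : X → ℂ) x ∂μ =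
        ∫ x in Q (Iio (((n + 1 : ℕ) : ℝ) / (n + 1))), (a eb : X → ℂ) x ∂μ := by
      have h1 : ((n + 1 : ℕ) : ℝ) / (n + 1) = 1 := by
        push_cast
        exact div_self (by positivity)
      rw [h1]
      symm
      apply setIntegral_congr_set
      have h2 : μ (Q (Iio 1)) = μ A := by
        rw [hQμ _ measurableSet_Iio]
        have : Iio (1 : ℝ) ∩ Ioo (0 : ℝ) 1 = Ioo 0 1 := by
          ext t
          simp only [mem_inter_iff, mem_Iio, mem_Ioo]
          tauto
        rw [this]
        simp
      exact ae_eq_of_subset_of_measure_ge (hQA _) (le_of_eq h2.symm)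
        (hQm _ measurableSet_Iio).nullMeasurableSet hfin
    rw [hfull]
    exact hstep (n + 1)
  have hcl : ⟪eA, (r1 eA eb) eb⟫_ℂ = 0 := by
    have hclosed : IsClosed {a : Lp ℂ 2 μ →L[ℂ] Lp ℂ 2 μ | ⟪eA, a eb⟫_ℂ = 0} :=
      isClosed_eq hcont continuous_const
    exact hclosed.closure_subset_iff.mpr hvan hmem
  rw [r1_apply, inner_smul_right] at hcl
  rcases mul_eq_zero.mp hcl with h1 | h1
  · have h2 : eb = 0 := inner_self_eq_zero.mp h1
    rw [← norm_eq_zero, heb, norm_indicatorConstLp (by norm_num) (by norm_num)] at h2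
    have h3 := ENNReal.toReal_pos pb fb
    simp only [norm_one, one_mul] at h2
    have h4 : (0 : ℝ) < μ.real {b} ^ (1 / (2 : ℝ≥0∞).toReal) := Real.rpow_pos_of_pos h3 _
    linarith
  · have h2 : eA = 0 := inner_self_eq_zero.mp h1
    rw [← norm_eq_zero, heA, norm_indicatorConstLp (by norm_num) (by norm_num)] at h2
    have h3 := ENNReal.toReal_pos h0 hfin
    simp only [norm_one, one_mul] at h2
    have h4 : (0 : ℝ) < μ.real A ^ (1 / (2 : ℝ≥0∞).toReal) := Real.rpow_pos_of_pos h3 _
    linarith

end R496.SE
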