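import Mathlib
import Pool.Agent.R496.SE.Fin

/-!
The statement-level definitions and the three cases in terms of them.
-/

namespace R496.SupportExpansion

open MeasureTheory
open scoped ENNReal NNReal

/-- The complex Hilbert space `L²(X, μ)`. -/
def HS {X : Type*} [MeasurableSpace X] (μ : Measure X) : Type _ := Lp ℂ 2 μ

noncomputable instance instHSNormed {X : Type*} [MeasurableSpace X] (μ : Measure X) :
    NormedAddCommGroup (HS μ) := inferInstanceAs (NormedAddCommGroup (Lp ℂ 2 μ))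

noncomputable instance instHSInner {X : Type*} [MeasurableSpace X] (μ : Measure X) :
    InnerProductSpace ℂ (HS μ) := inferInstanceAs (InnerProductSpace ℂ (Lp ℂ 2 μ))

instance instHSComplete {X : Type*} [MeasurableSpace X] (μ : Measure X) :
    CompleteSpace (HS μ) := inferInstanceAs (CompleteSpace (Lp ℂ 2 μ))

/-- The bounded operators on `L²(X, μ)`. -/
abbrev Op {X : Type*} [MeasurableSpace X] (μ : Measure X) : Type _ := HS μ →L[ℂ] HS μ

/-- The support `{x | ξ x ≠ 0}` of (a representative of) a vector of `L²(X, μ)`. -/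
def suppt {X : Type*} [MeasurableSpace X] {μ : Measure X} (ξ : HS μ) : Set X :=
  {x | (show Lp ℂ 2 μ from ξ) x ≠ 0}

/-- `μ(supp (a ξ)) ≤ c μ(supp ξ)` for every vector `ξ`. -/
def Expands {X : Type*} [MeasurableSpace X] {μ : Measure X} (c : ℝ≥0) (a : Op μ) : Prop :=
  ∀ ξ : HS μ, μ (suppt (a ξ)) ≤ c * μ (suppt ξ)

/-- `b` is the Hilbert space adjoint `a*` of `a`: `⟨b ξ, η⟩ = ⟨ξ, a η⟩` for all `ξ`, `η`. -/
def IsAdj {X : Type*} [MeasurableSpace X] {μ : Measure X} (a b : Op μ) : Prop :=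
  ∀ ξ η : HS μ, inner ℂ (b ξ) η = inner ℂ ξ (a η)

/-- The operator `a` on `L²(X, μ)` has support expansion at most `c`: for every vector `ξ` one has
`μ(supp (a ξ)) ≤ c μ(supp ξ)` and `μ(supp (a* ξ)) ≤ c μ(supp ξ)`. -/
def HasSupportExpansion {X : Type*} [MeasurableSpace X] {μ : Measure X} (c : ℝ≥0)
    (a : Op μ) : Prop :=
  Expands c a ∧ ∀ b : Op μ, IsAdj a b → Expands c b

/-- The algebra `C*_u(X, V_μ)`: the norm closure of the set of operators with support expansion at
most `c` for some real `c ≥ 0`. -/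
def CuAlg {X : Type*} [MeasurableSpace X] (μ : Measure X) : Set (Op μ) :=
  closure {a | ∃ c : ℝ≥0, HasSupportExpansion c a}

/-- `X` is the disjoint union of the measurable sets `P i`, all of finite measure, a set is
measurable exactly when all its traces on the `P i` are, and then its measure is the sum of the
measures of its traces. -/
structure FinitelyDecomposable {X I : Type*} [MeasurableSpace X] (μ : Measure X)
    (P : I → Set X) : Prop where
  disjoint : ∀ i j, i ≠ j → Disjoint (P i) (P j)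
  cover : ⋃ i, P i = Set.univ
  measurable_piece : ∀ i, MeasurableSet (P i)
  finite_piece : ∀ i, μ (P i) < ∞
  measurable_iff : ∀ A : Set X, MeasurableSet A ↔ ∀ i, MeasurableSet (A ∩ P i)
  measure_eq : ∀ A : Set X, MeasurableSet A → μ A = ∑' i, μ (A ∩ P i)

variable {X I : Type*} [MeasurableSpace X] {μ : Measure X}

theorem hse_iff (c : ℝ≥0) (a : Lp ℂ 2 μ →L[ℂ] Lp ℂ 2 μ) :
    HasSupportExpansion (μ := μ) c a ↔
      (SE.Ex (c : ℝ≥0∞) a ∧ SE.Ex (c : ℝ≥0∞) (ContinuousLinearMap.adjoint a)) := by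
  constructor
  · rintro ⟨h1, h2⟩
    exact ⟨h1, h2 (ContinuousLinearMap.adjoint a) fun ξ η =>
      ContinuousLinearMap.adjoint_inner_left a η ξ⟩
  · rintro ⟨h1, h2⟩
    refine ⟨h1, fun b hb => ?_⟩
    have h3 : (show Lp ℂ 2 μ →L[ℂ] Lp ℂ 2 μ from b) = ContinuousLinearMap.adjoint a :=
      (ContinuousLinearMap.eq_adjoint_iff _ _).mpr hb
    have h4 : SE.Ex (c : ℝ≥0∞) (show Lp ℂ 2 μ →L[ℂ] Lp ℂ 2 μ from b) := by
      rw [h3]
      exact h2
    exact h4

theorem cu_eq :
    CuAlg μ = ((SE.Adm μ).topologicalClosure : Set (Lp ℂ 2 μ →L[ℂ] Lp ℂ 2 μ)) := by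
  have h : {a : Op μ | ∃ c : ℝ≥0, HasSupportExpansion c a} =
      ((SE.Adm μ : Submodule ℂ (Lp ℂ 2 μ →L[ℂ] Lp ℂ 2 μ)) : Set (Lp ℂ 2 μ →L[ℂ] Lp ℂ 2 μ)) := by
    ext a
    exact exists_congr fun c => hse_iff c a
  unfold CuAlg
  rw [h]
  rfl

theorem singleton_meas {P : I → Set X} (hP : FinitelyDecomposable μ P)
    (hst : ∀ i, StandardBorelSpace (P i)) (x : X) : MeasurableSet ({x} : Set X) := by
  have hx : x ∈ ⋃ i, P i := by rw [hP.cover]; trivial
  obtain ⟨i, hi⟩ := Set.mem_iUnion.mp hx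
  have := hst i
  have h1 : MeasurableSet ({⟨x, hi⟩} : Set (P i)) := measurableSet_singleton _
  have h2 := (hP.measurable_piece i).subtype_image h1
  rwa [Set.image_singleton] at h2

theorem singleton_fin {P : I → Set X} (hP : FinitelyDecomposable μ P) (x : X) : μ {x} ≠ ∞ := by
  have hx : x ∈ ⋃ i, P i := by rw [hP.cover]; trivial
  obtain ⟨i, hi⟩ := Set.mem_iUnion.mp hx
  exact ne_top_of_le_ne_top (hP.finite_piece i).ne (measure_mono (Set.singleton_subset_iff.mpr hi))

theorem q2 {P : I → Set X} (hP : FinitelyDecomposable μ P)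
    (hst : ∀ i, StandardBorelSpace (P i)) :
    (∀ k : Op μ, IsCompactOperator k → k ∈ CuAlg μ) ↔
      ((∀ x, μ {x} = 0) ∨ ∀ A, MeasurableSet A → μ A ≠ 0 → ∃ x ∈ A, μ {x} ≠ 0) := by
  constructor
  · intro h
    by_contra hcon
    push Not at hcon
    obtain ⟨⟨b, hb⟩, E, hE, hE0, hEx⟩ := hcon
    rw [hP.measure_eq E hE] at hE0
    obtain ⟨i, hi⟩ : ∃ i, μ (E ∩ P i) ≠ 0 := by
      by_contra hc
      push Not at hc
      exact hE0 (ENNReal.tsum_eq_zero.mpr hc)
    have hA : MeasurableSet (E ∩ P i) := hE.inter (hP.measurable_piece i)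
    have hAf : μ (E ∩ P i) ≠ ∞ :=
      ne_top_of_le_ne_top (hP.finite_piece i).ne (measure_mono Set.inter_subset_right)
    refine SE.mixed_case (singleton_meas hP hst) (singleton_meas hP hst b) (singleton_fin hP b) hb
      hA (SE.sbs_subset hA (hst i) Set.inter_subset_right) hi hAf (fun x hx => hEx x hx.1) ?_
    have h5 := h _ (SE.r1_compact (H := Lp ℂ 2 μ)
      (indicatorConstLp 2 hA hAf (1 : ℂ))
      (indicatorConstLp 2 (singleton_meas hP hst b) (singleton_fin hP b) (1 : ℂ)))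
    rw [cu_eq] at h5
    exact h5
  · rintro (h | h) k hk <;> rw [cu_eq]
    · exact SE.atomless_case P hP.measurable_piece hst (fun i => (hP.finite_piece i).ne)
        hP.measure_eq h k hk
    · exact SE.atomic_case (singleton_meas hP hst) (singleton_fin hP) h k hk

theorem r1_self_ne {H : Type*} [NormedAddCommGroup H] [InnerProductSpace ℂ H] [CompleteSpace H]
    {x : H} (hx : x ≠ 0) : SE.r1 x x ≠ 0 := by
  intro h
  have h1 := SE.r1_norm x x
  rw [h, norm_zero] at h1
  have h2 : 0 < ‖x‖ := norm_pos_iff.mpr hx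
  nlinarith

theorem ind_ne {A : Set X} (hA : MeasurableSet A) (hf : μ A ≠ ∞) (h0 : μ A ≠ 0) :
    indicatorConstLp 2 hA hf (1 : ℂ) ≠ 0 := by
  intro h2
  rw [← norm_eq_zero, norm_indicatorConstLp (by norm_num) (by norm_num)] at h2
  have h3 := ENNReal.toReal_pos h0 hf
  simp only [norm_one, one_mul] at h2
  have h4 : (0 : ℝ) < μ.real A ^ (1 / (2 : ℝ≥0∞).toReal) := Real.rpow_pos_of_pos h3 _
  linarith

theorem q1 {P : I → Set X} (hP : FinitelyDecomposable μ P)
    (hst : ∀ i, StandardBorelSpace (P i)) (hμ : μ ≠ 0) :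
    ∃ k : Op μ, k ∈ CuAlg μ ∧ IsCompactOperator k ∧ k ≠ 0 := by
  by_cases hat : ∀ x, μ {x} = 0
  · have h0 : μ Set.univ ≠ 0 := by
      intro h
      exact hμ (Measure.measure_univ_eq_zero.mp h)
    rw [hP.measure_eq _ MeasurableSet.univ] at h0
    obtain ⟨i, hi⟩ : ∃ i, μ (Set.univ ∩ P i) ≠ 0 := by
      by_contra hc
      push Not at hc
      exact h0 (ENNReal.tsum_eq_zero.mpr hc)
    rw [Set.univ_inter] at hi
    obtain ⟨S, T, p⟩ := SE.exists_piece (P i) (hP.measurable_piece i) (hst i) hi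
      (hP.finite_piece i).ne (fun x _ => hat x)
    refine ⟨SE.r1 (indicatorConstLp 2 p.mB p.fin (1 : ℂ)) (indicatorConstLp 2 p.mB p.fin (1 : ℂ)),
      ?_, SE.r1_compact (H := Lp ℂ 2 μ) _ _, r1_self_ne (H := Lp ℂ 2 μ) (ind_ne _ _ hi)⟩
    rw [cu_eq]
    exact SE.two_pieces p p
  · push Not at hat
    obtain ⟨b, hb⟩ := hat
    have hm := singleton_meas hP hst b
    have hf := singleton_fin hP b
    refine ⟨SE.r1 (indicatorConstLp 2 hm hf (1 : ℂ)) (indicatorConstLp 2 hm hf (1 : ℂ)),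
      ?_, SE.r1_compact (H := Lp ℂ 2 μ) _ _, r1_self_ne (H := Lp ℂ 2 μ) (ind_ne _ _ hb)⟩
    rw [cu_eq]
    exact subset_closure (SE.atom_mem hm hm hf hf hb hb)

theorem ico_disjoint (i j : ℤ) (hij : i ≠ j) :
    Disjoint (Set.Ico (i : ℝ) (i + 1)) (Set.Ico (j : ℝ) (j + 1)) := by
  rw [Set.disjoint_left]
  rintro x ⟨h1, h2⟩ ⟨h3, h4⟩
  apply hij
  have h5 : i < j + 1 := by exact_mod_cast lt_of_le_of_lt h1 h4
  have h6 : j < i + 1 := by exact_mod_cast lt_of_le_of_lt h3 h2
  omega

theorem real_decomp : FinitelyDecomposable (volume : Measure ℝ)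
    (fun n : ℤ => Set.Ico (n : ℝ) (n + 1)) where
  disjoint i j hij := ico_disjoint i j hij
  cover := iUnion_Ico_intCast ℝ
  measurable_piece i := measurableSet_Ico
  finite_piece i := by
    rw [Real.volume_Ico]
    exact ENNReal.ofReal_lt_top
  measurable_iff A := by
    constructor
    · intro h i
      exact h.inter measurableSet_Ico
    · intro h
      have : A = ⋃ i : ℤ, A ∩ Set.Ico (i : ℝ) (i + 1) := by
        rw [← Set.inter_iUnion, iUnion_Ico_intCast ℝ, Set.inter_univ]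
      rw [this]
      exact MeasurableSet.iUnion h
  measure_eq A hA := by
    have h1 : A = ⋃ i : ℤ, A ∩ Set.Ico (i : ℝ) (i + 1) := by
      rw [← Set.inter_iUnion, iUnion_Ico_intCast ℝ, Set.inter_univ]
    conv_lhs => rw [h1]
    refine measure_iUnion ?_ (fun i => hA.inter measurableSet_Ico)
    intro i j hij
    exact (ico_disjoint i j hij).mono Set.inter_subset_right
      Set.inter_subset_right

theorem real_case (k : Op (volume : Measure ℝ))
    (hk : IsCompactOperator k) : k ∈ CuAlg (volume : Measure ℝ) :=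
  (q2 real_decomp (fun _ => (measurableSet_Ico).standardBorel)).mpr
    (Or.inl fun x => measure_singleton x) k hk

end R496.SupportExpansion
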